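import Mathlib

/-!
Coverings of a set of positions by few intervals of small total length.
-/

set_option autoImplicit false

open Finset

namespace Pool.Agent.R474

lemma card_filter_succ (S : ℕ → Prop) [DecidablePred S] (N : ℕ) :
    ((Icc 1 (N + 1)).filter S).card = ((Icc 1 N).filter S).card + if S (N + 1) then 1 else 0 := by
  have h : Icc 1 (N + 1) = insert (N + 1) (Icc 1 N) := by
    ext k; simp only [mem_Icc, mem_insert]; omega
  rw [h, filter_insert]
  split_ifs with h1
  · rw [card_insert_of_notMem]
    intro h2
    have := (mem_Icc.1 (mem_filter.1 h2).1).2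
    omega
  · simp

lemma build (S B : ℕ → Prop) [DecidablePred S] [DecidablePred B] (g n : ℕ)
    (H : ∀ z, 1 ≤ z → z ≤ n → S z → ¬ B z → ∃ x, 1 ≤ x ∧ x < z ∧ z ≤ x + g ∧ (S x ∨ B x)) (hg : 1 ≤ g) :
    ∀ N, N ≤ n → ∃ (K : ℕ) (u w : ℕ → ℕ), K = ((Icc 1 N).filter B).card ∧ (∀ i < K, u i ≤ w i) ∧
      (∀ i < K, w i ≤ N) ∧
      (∀ k, 1 ≤ k → k ≤ N → S k → ∃ i < K, u i ≤ k ∧ k ≤ w i) ∧
      (∑ i ∈ range K, (w i + 1 - u i) ≤ g * ((Icc 1 N).filter S).card +
        ((Icc 1 N).filter (fun k => B k ∧ ¬ S k)).card) ∧
      (∀ x, 1 ≤ x → x ≤ N → (S x ∨ B x) → ∃ K', K = K' + 1 ∧ x ≤ w K') := by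
  intro N
  induction N with
  | zero =>
    intro _
    refine ⟨0, fun _ => 0, fun _ => 0, by simp, by simp, by simp, fun k h1 h2 => by omega, by simp,
      fun x h1 h2 => by omega⟩
  | succ N ih =>
    intro hN
    obtain ⟨K, u, w, hK, huw, hwN, hcov, hsum, hlast⟩ := ih (by omega)
    by_cases hB : B (N + 1)
    · -- a new interval
      refine ⟨K + 1, Function.update u K (N + 1), Function.update w K (N + 1), ?_, ?_, ?_, ?_, ?_, ?_⟩
      · rw [card_filter_succ, if_pos hB, hK]
      · intro i hi
        rcases Nat.lt_succ_iff_lt_or_eq.1 hi with h | h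
        · rw [Function.update_of_ne h.ne, Function.update_of_ne h.ne]; exact huw i h
        · rw [h, Function.update_self, Function.update_self]
      · intro i hi
        rcases Nat.lt_succ_iff_lt_or_eq.1 hi with h | h
        · rw [Function.update_of_ne h.ne]; have := hwN i h; omega
        · rw [h, Function.update_self]
      · intro k hk1 hk2 hS
        rcases Nat.lt_succ_iff_lt_or_eq.1 (Nat.lt_succ_of_le hk2) with h | h
        · obtain ⟨i, hi, h1, h2⟩ := hcov k hk1 (by omega) hS
          refine ⟨i, by omega, ?_, ?_⟩
          · rw [Function.update_of_ne hi.ne]; exact h1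
          · rw [Function.update_of_ne hi.ne]; exact h2
        · refine ⟨K, by omega, ?_, ?_⟩
          · rw [Function.update_self]; omega
          · rw [Function.update_self]; omega
      · rw [sum_range_succ, Function.update_self, Function.update_self, card_filter_succ,
          card_filter_succ (fun k => B k ∧ ¬ S k)]
        have h1 : ∑ i ∈ range K, (Function.update w K (N + 1) i + 1 - Function.update u K (N + 1) i) =
            ∑ i ∈ range K, (w i + 1 - u i) := by
          refine sum_congr rfl fun i hi => ?_
          have := mem_range.1 hi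
          rw [Function.update_of_ne this.ne, Function.update_of_ne this.ne]
        rw [h1, Nat.mul_add]
        by_cases hS : S (N + 1)
        · rw [if_pos hS, if_neg (by tauto)]
          omega
        · rw [if_neg hS, if_pos ⟨hB, hS⟩]
          omega
      · intro x hx1 hx2 hx
        refine ⟨K, rfl, ?_⟩
        rw [Function.update_self]
        exact hx2
    · by_cases hS : S (N + 1)
      · -- extend the last interval
        obtain ⟨x, hx1, hx2, hx3, hx4⟩ := H (N + 1) (by omega) hN hS hB
        obtain ⟨K', hK', hxw⟩ := hlast x hx1 (by omega) hx4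
        refine ⟨K, u, Function.update w K' (N + 1), ?_, ?_, ?_, ?_, ?_, ?_⟩
        · rw [card_filter_succ, if_neg hB, hK]; omega
        · intro i hi
          by_cases h : i = K'
          · rw [h, Function.update_self]
            have h1 := huw K' (by omega)
            have h2 := hwN K' (by omega)
            omega
          · rw [Function.update_of_ne h]; exact huw i hi
        · intro i hi
          by_cases h : i = K'
          · rw [h, Function.update_self]
          · rw [Function.update_of_ne h]; have := hwN i hi; omega
        · intro k hk1 hk2 hSk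
          rcases Nat.lt_succ_iff_lt_or_eq.1 (Nat.lt_succ_of_le hk2) with h | h
          · obtain ⟨i, hi, h1, h2⟩ := hcov k hk1 (by omega) hSk
            refine ⟨i, hi, h1, ?_⟩
            by_cases h' : i = K'
            · rw [h', Function.update_self]; omega
            · rw [Function.update_of_ne h']; exact h2
          · refine ⟨K', by omega, ?_, ?_⟩
            · have h1 := huw K' (by omega)
              have h2 := hwN K' (by omega)
              omega
            · rw [Function.update_self]; omega
        · rw [card_filter_succ, if_pos hS, card_filter_succ (fun k => B k ∧ ¬ S k),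
            if_neg (by tauto), hK', sum_range_succ, Function.update_self]
          have h1 : ∑ i ∈ range K', (Function.update w K' (N + 1) i + 1 - u i) =
              ∑ i ∈ range K', (w i + 1 - u i) := by
            refine sum_congr rfl fun i hi => ?_
            have := mem_range.1 hi
            rw [Function.update_of_ne this.ne]
          rw [h1]
          rw [hK', sum_range_succ] at hsum
          have h2 := huw K' (by omega)
          have h3 := hwN K' (by omega)
          rw [Nat.mul_add]
          omega
        · intro y hy1 hy2 hy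
          refine ⟨K', hK', ?_⟩
          rw [Function.update_self]
          exact hy2
      · -- nothing to do
        refine ⟨K, u, w, ?_, huw, ?_, ?_, ?_, ?_⟩
        · rw [card_filter_succ, if_neg hB, hK]; omega
        · intro i hi; have := hwN i hi; omega
        · intro k hk1 hk2 hSk
          rcases Nat.lt_succ_iff_lt_or_eq.1 (Nat.lt_succ_of_le hk2) with h | h
          · exact hcov k hk1 (by omega) hSk
          · exact absurd (h ▸ hSk) hS
        · rw [card_filter_succ, if_neg hS, card_filter_succ (fun k => B k ∧ ¬ S k),
            if_neg (by tauto)]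
          exact hsum
        · intro x hx1 hx2 hx
          rcases Nat.lt_succ_iff_lt_or_eq.1 (Nat.lt_succ_of_le hx2) with h | h
          · exact hlast x hx1 (by omega) hx
          · rw [h] at hx; tauto

/-- Every error window contains an element of `S`. -/
lemma card_le_windows (S E : ℕ → Prop) [DecidablePred S] [DecidablePred E] (n m : ℕ)
    (h : ∀ z, 1 ≤ z → z ≤ n → E z → ∃ x, 1 ≤ x ∧ x ≤ z ∧ z ≤ x + m ∧ S x) :
    ((Icc 1 n).filter E).card ≤ (m + 1) * ((Icc 1 n).filter S).card := by
  have h1 : (Icc 1 n).filter E ⊆ ((Icc 1 n).filter S).biUnion (fun x => Icc x (x + m)) := by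
    intro z hz
    obtain ⟨hz1, hz2⟩ := mem_filter.1 hz
    obtain ⟨hz3, hz4⟩ := mem_Icc.1 hz1
    obtain ⟨x, hx1, hx2, hx3, hx4⟩ := h z hz3 hz4 hz2
    refine mem_biUnion.2 ⟨x, mem_filter.2 ⟨mem_Icc.2 ⟨hx1, by omega⟩, hx4⟩, mem_Icc.2 ⟨hx2, hx3⟩⟩
  refine (card_le_card h1).trans (card_biUnion_le.trans ?_)
  have h2 : ∀ x ∈ (Icc 1 n).filter S, (Icc x (x + m)).card = m + 1 := by
    intro x _
    rw [Nat.card_Icc]; omega
  rw [sum_congr rfl h2, sum_const, smul_eq_mul, Nat.mul_comm]

end Pool.Agent.R474
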