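import Mathlib

/-!
Binary expansions and their self-convolution.

`a` is a sequence of digits `0, 1`, `V R` the integer formed by the digits up to the place `R`,
`r k` the number of pairs of places of ones with sum `k`, `P R` the partial sums of the square.
-/

set_option autoImplicit false

open Finset

namespace Pool.Agent.R474

/-- the number of pairs of ones with sum `k` -/
def rep (a : ℕ → ℕ) (k : ℕ) : ℕ := ∑ i ∈ range (k + 1), a i * a (k - i)

/-- the integer formed by the digits up to the place `R` -/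
def V (a : ℕ → ℕ) : ℕ → ℕ
  | 0 => a 0
  | R + 1 => 2 * V a R + a (R + 1)

/-- the partial sums of the square, scaled -/
def P (a : ℕ → ℕ) : ℕ → ℕ
  | 0 => rep a 0
  | R + 1 => 2 * P a R + rep a (R + 1)

lemma V_eq (a : ℕ → ℕ) (R : ℕ) :
    (V a R : ℝ) = 2 ^ R * ∑ i ∈ range (R + 1), (a i : ℝ) / 2 ^ i := by
  induction R with
  | zero => simp [V]
  | succ R ih =>
    rw [sum_range_succ, V]
    push_cast
    rw [ih, pow_succ]
    field_simp

lemma P_eq (a : ℕ → ℕ) (R : ℕ) :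
    (P a R : ℝ) = 2 ^ R * ∑ k ∈ range (R + 1), (rep a k : ℝ) / 2 ^ k := by
  induction R with
  | zero => simp [P]
  | succ R ih =>
    rw [sum_range_succ, P]
    push_cast
    rw [ih, pow_succ]
    field_simp

lemma rep_div (a : ℕ → ℕ) (k : ℕ) :
    (rep a k : ℝ) / 2 ^ k = ∑ i ∈ range (k + 1), ((a i : ℝ) / 2 ^ i) * ((a (k - i) : ℝ) / 2 ^ (k - i)) := by
  unfold rep
  push_cast
  rw [sum_div]
  refine sum_congr rfl fun i hi => ?_
  have h : i + (k - i) = k := by have := mem_range.1 hi; omega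
  have h2 : (2 : ℝ) ^ k = 2 ^ i * 2 ^ (k - i) := by rw [← pow_add, h]
  rw [h2]
  field_simp

lemma sum_rep_div (a : ℕ → ℕ) (m : ℕ) :
    ∑ k ∈ range m, (rep a k : ℝ) / 2 ^ k =
      ∑ i ∈ range m, ∑ j ∈ range (m - i), ((a i : ℝ) / 2 ^ i) * ((a j : ℝ) / 2 ^ j) := by
  rw [← sum_range_diag_flip m (fun i j => ((a i : ℝ) / 2 ^ i) * ((a j : ℝ) / 2 ^ j))]
  exact sum_congr rfl fun k _ => rep_div a k

lemma P_le_sq (a : ℕ → ℕ) (R : ℕ) : (P a R : ℝ) * 2 ^ R ≤ (V a R : ℝ) ^ 2 := by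
  rw [P_eq, V_eq, sum_rep_div, mul_pow, sq (∑ i ∈ range (R + 1), _), sum_mul_sum]
  have h : ∑ i ∈ range (R + 1), ∑ j ∈ range (R + 1 - i), ((a i : ℝ) / 2 ^ i) * ((a j : ℝ) / 2 ^ j) ≤
      ∑ i ∈ range (R + 1), ∑ j ∈ range (R + 1), ((a i : ℝ) / 2 ^ i) * ((a j : ℝ) / 2 ^ j) := by
    refine sum_le_sum fun i _ => sum_le_sum_of_subset_of_nonneg ?_ fun j _ _ => by positivity
    intro j hj
    rw [mem_range] at hj ⊢
    omega
  calc (2 : ℝ) ^ R * (∑ i ∈ range (R + 1), ∑ j ∈ range (R + 1 - i),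
        ((a i : ℝ) / 2 ^ i) * ((a j : ℝ) / 2 ^ j)) * 2 ^ R
      = (2 ^ R) ^ 2 * ∑ i ∈ range (R + 1), ∑ j ∈ range (R + 1 - i),
        ((a i : ℝ) / 2 ^ i) * ((a j : ℝ) / 2 ^ j) := by ring
    _ ≤ _ := mul_le_mul_of_nonneg_left h (by positivity)

lemma sq_le_P (a : ℕ → ℕ) (h : ℕ) : (V a h : ℝ) ^ 2 ≤ (P a (2 * h) : ℝ) := by
  rw [P_eq, V_eq, sum_rep_div, mul_pow, sq (∑ i ∈ range (h + 1), _), sum_mul_sum]
  have h1 : ∑ i ∈ range (h + 1), ∑ j ∈ range (h + 1), ((a i : ℝ) / 2 ^ i) * ((a j : ℝ) / 2 ^ j) ≤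
      ∑ i ∈ range (2 * h + 1), ∑ j ∈ range (2 * h + 1 - i),
        ((a i : ℝ) / 2 ^ i) * ((a j : ℝ) / 2 ^ j) := by
    calc _ ≤ ∑ i ∈ range (h + 1), ∑ j ∈ range (2 * h + 1 - i),
        ((a i : ℝ) / 2 ^ i) * ((a j : ℝ) / 2 ^ j) := by
          refine sum_le_sum fun i hi => sum_le_sum_of_subset_of_nonneg ?_ fun j _ _ => by positivity
          intro j hj
          rw [mem_range] at hi hj ⊢
          omega
      _ ≤ _ := by
          refine sum_le_sum_of_subset_of_nonneg ?_ fun i _ _ => sum_nonneg fun j _ => by positivity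
          intro i hi
          rw [mem_range] at hi ⊢
          omega
  have h2 : ((2 : ℝ) ^ h) ^ 2 = 2 ^ (2 * h) := by rw [← pow_mul, mul_comm]
  rw [h2]
  exact mul_le_mul_of_nonneg_left h1 (by positivity)

lemma rep_le (a : ℕ → ℕ) (ha : ∀ k, a k ≤ 1) (k : ℕ) : rep a k ≤ k + 1 := by
  unfold rep
  calc ∑ i ∈ range (k + 1), a i * a (k - i) ≤ ∑ i ∈ range (k + 1), 1 :=
        sum_le_sum fun i _ => by
          calc a i * a (k - i) ≤ 1 * 1 := Nat.mul_le_mul (ha _) (ha _)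
            _ = 1 := rfl
    _ = k + 1 := by simp

/-- the data of an expansion of a real number `y` -/
structure Exp (a : ℕ → ℕ) (y : ℝ) : Prop where
  le_one : ∀ k, a k ≤ 1
  pos : ∀ R, (V a R : ℝ) < 2 ^ R * y
  lt : ∀ R, 2 ^ R * y < (V a R : ℝ) + 1

/-- the tail of the square -/
noncomputable def T (a : ℕ → ℕ) (y : ℝ) (R : ℕ) : ℝ := 2 ^ R * y ^ 2 - P a R

variable {a : ℕ → ℕ} {y : ℝ}

lemma Exp.y_pos (h : Exp a y) : 0 < y := by
  have := h.pos 0
  simp at this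
  have h0 : (0 : ℝ) ≤ V a 0 := Nat.cast_nonneg _
  linarith

lemma Exp.y_lt (h : Exp a y) : y < 2 := by
  have := h.lt 0
  simp [V] at this
  have h0 : (a 0 : ℝ) ≤ 1 := by exact_mod_cast h.le_one 0
  linarith

lemma T_succ (a : ℕ → ℕ) (y : ℝ) (R : ℕ) : T a y (R + 1) = 2 * T a y R - rep a (R + 1) := by
  unfold T
  rw [P]
  push_cast
  ring

lemma T_lower (_h : Exp a y) (R : ℕ) :
    (2 ^ R * y - V a R) * (2 * y) - (2 ^ R * y - V a R) ^ 2 / 2 ^ R ≤ T a y R := by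
  have h1 := P_le_sq a R
  have h2 : (0 : ℝ) < 2 ^ R := by positivity
  unfold T
  have h3 : (P a R : ℝ) ≤ (V a R : ℝ) ^ 2 / 2 ^ R := by rwa [le_div_iff₀ h2]
  have h4 : (2 ^ R * y - V a R) * (2 * y) - (2 ^ R * y - V a R) ^ 2 / 2 ^ R =
      2 ^ R * y ^ 2 - (V a R : ℝ) ^ 2 / 2 ^ R := by
    field_simp
    ring
  rw [h4]
  linarith

lemma T_pos (h : Exp a y) (R : ℕ) : 0 < T a y R := by
  refine lt_of_lt_of_le ?_ (T_lower h R)
  have h1 := h.pos R
  have h2 := h.lt R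
  have h3 : (0 : ℝ) < 2 ^ R := by positivity
  have hy := h.y_pos
  set t := 2 ^ R * y - V a R with ht
  have ht0 : 0 < t := by linarith
  have ht2 : t ≤ 2 ^ R * y := by
    have : (0 : ℝ) ≤ V a R := Nat.cast_nonneg _
    linarith
  have h5 : t ^ 2 / 2 ^ R ≤ t * y := by
    rw [div_le_iff₀ h3]
    nlinarith
  nlinarith

lemma T_even_le (h : Exp a y) (m : ℕ) : T a y (2 * m) ≤ 2 ^ (m + 2) := by
  have h1 := sq_le_P a m
  have h2 := h.pos m
  have h3 := h.lt m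
  have hy := h.y_pos
  have hy2 := h.y_lt
  unfold T
  have h4 : (2 : ℝ) ^ (2 * m) = 2 ^ m * 2 ^ m := by rw [← pow_add]; congr 1; ring
  have h5 : (0 : ℝ) ≤ V a m := Nat.cast_nonneg _
  have h6 : (0 : ℝ) < 2 ^ m := by positivity
  have h7 : (2 : ℝ) ^ (m + 2) = 4 * 2 ^ m := by rw [pow_add]; ring
  rw [h4, h7]
  have h8 : 2 ^ m * 2 ^ m * y ^ 2 - (V a m : ℝ) ^ 2 = (2 ^ m * y - V a m) * (2 ^ m * y + V a m) := by ring
  have h9 : (2 ^ m * y - V a m) * (2 ^ m * y + V a m) ≤ 1 * (2 ^ m * y + V a m) :=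
    mul_le_mul_of_nonneg_right (by linarith) (by nlinarith)
  have h10 : 2 ^ m * y ≤ 2 ^ m * 2 := by nlinarith
  linarith

lemma T_grow (h : Exp a y) (R : ℕ) (hR : (R : ℝ) + 4 ≤ T a y R) (j : ℕ) :
    (R : ℝ) + j + 3 + 2 ^ j ≤ T a y (R + j) := by
  induction j with
  | zero => simp; linarith
  | succ j ih =>
    have h1 : T a y (R + j + 1) = 2 * T a y (R + j) - rep a (R + j + 1) := T_succ a y (R + j)
    have h2 : (rep a (R + j + 1) : ℝ) ≤ R + j + 2 := by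
      have := rep_le a h.le_one (R + j + 1)
      exact_mod_cast this
    have h3 : T a y (R + (j + 1)) = T a y (R + j + 1) := rfl
    rw [h3, h1, pow_succ]
    push_cast
    have : (0 : ℝ) ≤ R := Nat.cast_nonneg _
    have : (0 : ℝ) ≤ j := Nat.cast_nonneg _
    linarith

lemma T_le (h : Exp a y) (R : ℕ) : T a y R ≤ R + 4 := by
  by_contra hc
  push Not at hc
  -- use the even index `2 * m` with `m = R + 3`
  have h1 := T_grow h R hc.le (R + 6)
  have h2 := T_even_le h (R + 3)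
  have e1 : R + (R + 6) = 2 * (R + 3) := by ring
  rw [e1] at h1
  have e2 : (2 : ℝ) ^ (R + 6) = 2 * 2 ^ (R + 3 + 2) := by rw [← pow_succ']
  rw [e2] at h1
  have h3 : (0 : ℝ) < 2 ^ (R + 3 + 2) := by positivity
  push_cast at h1
  have : (0 : ℝ) ≤ R := Nat.cast_nonneg _
  linarith

lemma sum_T (a : ℕ → ℕ) (y : ℝ) (n : ℕ) :
    ∑ R ∈ Icc 1 n, T a y R = ∑ k ∈ Icc 1 n, (rep a k : ℝ) + 2 * T a y n - 2 * T a y 0 := by
  induction n with
  | zero => simp
  | succ n ih =>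
    rw [sum_Icc_succ_top (by omega), sum_Icc_succ_top (by omega), ih, T_succ]
    ring

lemma sum_rep_le (a : ℕ → ℕ) (n : ℕ) :
    ∑ k ∈ Icc 1 n, (rep a k : ℝ) ≤ (∑ k ∈ range (n + 1), (a k : ℝ)) ^ 2 := by
  have h1 : ∑ k ∈ Icc 1 n, (rep a k : ℝ) ≤ ∑ k ∈ range (n + 1), (rep a k : ℝ) := by
    refine sum_le_sum_of_subset_of_nonneg ?_ fun k _ _ => Nat.cast_nonneg _
    intro k hk
    rw [mem_Icc] at hk
    rw [mem_range]
    omega
  refine h1.trans ?_
  have h2 : ∑ k ∈ range (n + 1), (rep a k : ℝ) =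
      ∑ i ∈ range (n + 1), ∑ j ∈ range (n + 1 - i), (a i : ℝ) * a j := by
    rw [← sum_range_diag_flip (n + 1) (fun i j => (a i : ℝ) * a j)]
    refine sum_congr rfl fun k _ => ?_
    unfold rep
    push_cast
    rfl
  rw [h2, sq, sum_mul_sum]
  refine sum_le_sum fun i _ => sum_le_sum_of_subset_of_nonneg ?_ fun j _ _ => by positivity
  intro j hj
  rw [mem_range] at hj ⊢
  omega

end Pool.Agent.R474
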