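import Pool.Agent.R474.Conv

/-!
The covering argument: an integer sequence `I` with `I (R + 1) = 2 I R - rep (R + 1) + e a (R + 1)`
which is bounded by the tails of the square is at least `1` only at few places if the ones of `a`
are covered by few short intervals.
-/

set_option autoImplicit false

open Finset

namespace Pool.Agent.R474

variable {a : ℕ → ℕ} {y : ℝ}

/-- the places up to `n` at which `I` is positive -/
def live (I : ℕ → ℤ) (n : ℕ) : Finset ℕ := (Icc 1 n).filter (fun R => 1 ≤ I R)

lemma rep_zero_of_cover (ha : ∀ k, a k ≤ 1) (n K : ℕ) (u w : ℕ → ℕ)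
    (hcov : ∀ k ≤ n, a k = 1 → ∃ i < K, u i ≤ k ∧ k ≤ w i) (R : ℕ) (hR : R ≤ n)
    (hno : ∀ i < K, ∀ j < K, ¬ (u i + u j ≤ R ∧ R ≤ w i + w j)) : rep a R = 0 := by
  unfold rep
  refine sum_eq_zero fun i hi => ?_
  rw [mem_range] at hi
  by_contra hne
  have h1 : a i ≠ 0 := fun h => hne (by rw [h, zero_mul])
  have h2 : a (R - i) ≠ 0 := fun h => hne (by rw [h, mul_zero])
  have h3 : a i = 1 := by have := ha i; omega
  have h4 : a (R - i) = 1 := by have := ha (R - i); omega
  obtain ⟨p, hp, hp1, hp2⟩ := hcov i (by omega) h3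
  obtain ⟨q, hq, hq1, hq2⟩ := hcov (R - i) (by omega) h4
  exact hno p hp q hq ⟨by omega, by omega⟩

lemma sum_a_le (ha : ∀ k, a k ≤ 1) (n K : ℕ) (u w : ℕ → ℕ)
    (hcov : ∀ k ≤ n, a k = 1 → ∃ i < K, u i ≤ k ∧ k ≤ w i) :
    ∑ k ∈ range (n + 1), a k ≤ ∑ i ∈ range K, (w i + 1 - u i) := by
  have h1 : ∑ k ∈ range (n + 1), a k = ((range (n + 1)).filter (fun k => a k = 1)).card := by
    rw [card_filter]
    refine sum_congr rfl fun k _ => ?_
    have := ha k
    split_ifs with h <;> omega
  rw [h1]
  calc ((range (n + 1)).filter (fun k => a k = 1)).card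
      ≤ ((range K).biUnion (fun i => Icc (u i) (w i))).card := by
        refine card_le_card fun k hk => ?_
        rw [mem_filter, mem_range] at hk
        obtain ⟨i, hi, h2, h3⟩ := hcov k (by omega) hk.2
        rw [mem_biUnion]
        exact ⟨i, mem_range.2 hi, mem_Icc.2 ⟨h2, h3⟩⟩
    _ ≤ ∑ i ∈ range K, (Icc (u i) (w i)).card := card_biUnion_le
    _ = _ := sum_congr rfl fun i _ => by rw [Nat.card_Icc]

lemma live_le (ha : ∀ k, a k ≤ 1) (I : ℕ → ℤ) (Tt : ℕ → ℝ) (e : ℤ)
    (hI : ∀ R, I (R + 1) = 2 * I R - rep a (R + 1) + e * a (R + 1))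
    (hT0 : ∀ R, 0 ≤ Tt R) (hIT : ∀ R, (I R : ℝ) ≤ Tt R)
    (n K : ℕ) (u w : ℕ → ℕ)
    (hcov : ∀ k ≤ n, a k = 1 → ∃ i < K, u i ≤ k ∧ k ≤ w i)
    (W : ℕ) (hW : W = ∑ i ∈ range K, (w i + 1 - u i)) (M : ℕ) :
    ((live I n).card : ℝ) ≤ (2 * K + 1) * W + (K ^ 2 + K + 1) * M +
      (∑ R ∈ Icc 1 n, Tt R) / 2 ^ M := by
  classical
  set E1 := (range K).biUnion (fun i => Icc (u i) (w i)) with hE1
  set E2 := (range K ×ˢ range K).biUnion (fun p => Icc (u p.1 + u p.2) (w p.1 + w p.2)) with hE2
  set F1 := (range K).biUnion (fun i => Ioc (w i) (w i + M)) with hF1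
  set F2 := (range K ×ˢ range K).biUnion (fun p => Ioc (w p.1 + w p.2) (w p.1 + w p.2 + M)) with hF2
  set F0 := Icc 1 M with hF0
  set Hi := (Icc 1 n).filter (fun R => 2 ^ M < I R) with hHi
  have hsub : live I n ⊆ E1 ∪ (E2 ∪ (F1 ∪ (F2 ∪ (F0 ∪ Hi)))) := by
    intro R hR
    rw [live, mem_filter, mem_Icc] at hR
    obtain ⟨⟨hR1, hRn⟩, hpos⟩ := hR
    by_cases h1 : R ∈ E1
    · exact mem_union_left _ h1
    refine mem_union_right _ ?_
    by_cases h2 : R ∈ E2
    · exact mem_union_left _ h2
    refine mem_union_right _ ?_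
    by_cases h3 : (2 : ℤ) ^ M < I R
    · refine mem_union_right _ (mem_union_right _ (mem_union_right _ ?_))
      rw [hHi, mem_filter, mem_Icc]
      exact ⟨⟨hR1, hRn⟩, h3⟩
    push Not at h3
    -- the last place before `R` in the covered set
    set S := (range R).filter (fun t => t = 0 ∨ t ∈ E1 ∨ t ∈ E2) with hS
    have hSne : S.Nonempty := ⟨0, by rw [hS, mem_filter, mem_range]; exact ⟨by omega, Or.inl rfl⟩⟩
    set α := S.max' hSne with hα
    have hαS : α ∈ S := S.max'_mem hSne
    rw [hS, mem_filter, mem_range] at hαS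
    have hnot : ∀ t, α < t → t ≤ R → t ∉ E1 ∧ t ∉ E2 := by
      intro t ht1 ht2
      rcases Nat.lt_or_ge t R with h | h
      · by_contra hc
        have : t ∈ S := by
          rw [hS, mem_filter, mem_range]
          refine ⟨h, Or.inr ?_⟩
          by_contra hc2
          push Not at hc2
          exact hc hc2
        have := S.le_max' t this
        omega
      · have : t = R := le_antisymm ht2 h
        subst this
        exact ⟨h1, h2⟩
    have hdbl : ∀ j, α + j ≤ R → I (α + j) = 2 ^ j * I α := by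
      intro j
      induction j with
      | zero => intro _; simp
      | succ j ih =>
        intro hj
        have h4 := hnot (α + (j + 1)) (by omega) hj
        have h5 : rep a (α + j + 1) = 0 := by
          refine rep_zero_of_cover ha n K u w hcov (α + j + 1) (by omega) ?_
          intro i hi i' hi' hc
          refine h4.2 ?_
          rw [hE2, mem_biUnion]
          exact ⟨(i, i'), mem_product.2 ⟨mem_range.2 hi, mem_range.2 hi'⟩, mem_Icc.2 hc⟩
        have h6 : a (α + j + 1) = 0 := by
          by_contra hne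
          have h7 : a (α + j + 1) = 1 := by have := ha (α + j + 1); omega
          obtain ⟨i, hi, hi1, hi2⟩ := hcov (α + j + 1) (by omega) h7
          refine h4.1 ?_
          rw [hE1, mem_biUnion]
          exact ⟨i, mem_range.2 hi, mem_Icc.2 ⟨hi1, hi2⟩⟩
        have h8 := hI (α + j)
        rw [h5, h6, ih (by omega)] at h8
        have h9 : I (α + (j + 1)) = I (α + j + 1) := rfl
        rw [h9, h8, pow_succ]
        push_cast
        ring
    have h10 := hdbl (R - α) (by omega)
    have h11 : α + (R - α) = R := by omega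
    rw [h11] at h10
    have h12 : 1 ≤ I α := by
      by_contra hc
      push Not at hc
      have : I α ≤ 0 := by omega
      have h13 : (0 : ℤ) < 2 ^ (R - α) := by positivity
      nlinarith
    have h14 : (2 : ℤ) ^ (R - α) ≤ 2 ^ M := by
      have h13 : (0 : ℤ) < 2 ^ (R - α) := by positivity
      nlinarith
    have h15 : R - α ≤ M := by
      by_contra hc
      push Not at hc
      have : (2 : ℤ) ^ M < 2 ^ (R - α) := pow_lt_pow_right₀ (by norm_num) hc
      omega
    rcases hαS with ⟨hαR, h0 | h16 | h16⟩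
    · refine mem_union_right _ (mem_union_right _ (mem_union_left _ ?_))
      rw [hF0, mem_Icc]
      omega
    · refine mem_union_left _ ?_
      rw [hE1, mem_biUnion] at h16
      obtain ⟨i, hi, hi1⟩ := h16
      rw [mem_Icc] at hi1
      have h17 : α = w i := by
        by_contra hne
        have : α + 1 ∈ E1 := by
          rw [hE1, mem_biUnion]
          exact ⟨i, hi, mem_Icc.2 ⟨by omega, by omega⟩⟩
        exact (hnot (α + 1) (by omega) (by omega)).1 this
      rw [hF1, mem_biUnion]
      exact ⟨i, hi, mem_Ioc.2 ⟨by omega, by omega⟩⟩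
    · refine mem_union_right _ (mem_union_left _ ?_)
      rw [hE2, mem_biUnion] at h16
      obtain ⟨p, hp, hp1⟩ := h16
      rw [mem_Icc] at hp1
      have h17 : α = w p.1 + w p.2 := by
        by_contra hne
        have : α + 1 ∈ E2 := by
          rw [hE2, mem_biUnion]
          exact ⟨p, hp, mem_Icc.2 ⟨by omega, by omega⟩⟩
        exact (hnot (α + 1) (by omega) (by omega)).2 this
      rw [hF2, mem_biUnion]
      exact ⟨p, hp, mem_Ioc.2 ⟨by omega, by omega⟩⟩
  -- the cardinalities
  have c1 : E1.card ≤ W := by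
    rw [hW]
    refine card_biUnion_le.trans (le_of_eq (sum_congr rfl fun i _ => by rw [Nat.card_Icc]))
  have c2 : E2.card ≤ 2 * K * W := by
    refine card_biUnion_le.trans ?_
    calc ∑ p ∈ range K ×ˢ range K, (Icc (u p.1 + u p.2) (w p.1 + w p.2)).card
        ≤ ∑ p ∈ range K ×ˢ range K, ((w p.1 + 1 - u p.1) + (w p.2 + 1 - u p.2)) := by
          refine sum_le_sum fun p _ => ?_
          rw [Nat.card_Icc]
          omega
      _ = 2 * K * W := by
          rw [sum_product, hW]
          simp only [sum_add_distrib, sum_const, card_range, smul_eq_mul]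
          rw [← mul_sum]
          ring
  have c3 : F1.card ≤ K * M := by
    refine card_biUnion_le.trans ?_
    simp
  have c4 : F2.card ≤ K ^ 2 * M := by
    refine card_biUnion_le.trans ?_
    simp [card_product, sq]
  have c5 : F0.card = M := by rw [hF0, Nat.card_Icc]; omega
  have c6 : (Hi.card : ℝ) ≤ (∑ R ∈ Icc 1 n, Tt R) / 2 ^ M := by
    rw [le_div_iff₀ (by positivity)]
    calc (Hi.card : ℝ) * 2 ^ M = ∑ _R ∈ Hi, (2 : ℝ) ^ M := by rw [sum_const, nsmul_eq_mul]
      _ ≤ ∑ R ∈ Hi, Tt R := by
          refine sum_le_sum fun R hR => ?_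
          rw [hHi, mem_filter] at hR
          have h1 : ((2 : ℤ) ^ M : ℝ) ≤ (I R : ℝ) := by exact_mod_cast hR.2.le
          have h2 := hIT R
          push_cast at h1
          linarith
      _ ≤ ∑ R ∈ Icc 1 n, Tt R :=
          sum_le_sum_of_subset_of_nonneg (filter_subset _ _) fun R _ _ => hT0 R
  have c7 : (live I n).card ≤ W + (2 * K * W + (K * M + (K ^ 2 * M + (M + Hi.card)))) := by
    refine (card_le_card hsub).trans ?_
    refine (card_union_le _ _).trans (add_le_add c1 ?_)
    refine (card_union_le _ _).trans (add_le_add c2 ?_)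
    refine (card_union_le _ _).trans (add_le_add c3 ?_)
    refine (card_union_le _ _).trans (add_le_add c4 ?_)
    refine (card_union_le _ _).trans ?_
    rw [c5]
  have c8 : ((live I n).card : ℝ) ≤ W + (2 * K * W + (K * M + (K ^ 2 * M + (M + (Hi.card : ℝ))))) := by
    exact_mod_cast c7
  nlinarith

end Pool.Agent.R474
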