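import Pool.Agent.R474.Cover

/-!
The places at which `I` is not positive, and the final inequality `n ≤ 100 K W`.
-/

set_option autoImplicit false

open Finset

namespace Pool.Agent.R474

variable {a : ℕ → ℕ} {y : ℝ}

/-- the places up to `n` at which `I` is not positive -/
def dead (I : ℕ → ℤ) (n : ℕ) : Finset ℕ := (Icc 1 n).filter (fun R => I R ≤ 0)

lemma live_add_dead (I : ℕ → ℤ) (n : ℕ) : (live I n).card + (dead I n).card = n := by
  have h := card_filter_add_card_filter_not (s := Icc 1 n) (fun R => 1 ≤ I R)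
  rw [Nat.card_Icc] at h
  have h2 : (Icc 1 n).filter (fun R => ¬ 1 ≤ I R) = dead I n := by
    unfold dead
    refine filter_congr fun R _ => ?_
    omega
  rw [h2] at h
  unfold live
  omega

lemma dead_le (_ha : ∀ k, a k ≤ 1) (ha0 : a 0 = 0) (I : ℕ → ℤ) (e : ℤ)
    (hI : ∀ R, I (R + 1) = 2 * I R - rep a (R + 1) + e * a (R + 1))
    (hlow : ∀ R, -3 ≤ I R)
    (hgap : ∀ l : ℕ, ∃ b, a b = 1 ∧ l < b ∧ b ≤ 2 * l + 2) :
    ∀ n : ℕ, (dead I n).card ≤ (live I n).card + 4 * (∑ k ∈ range (n + 1), a k + 1) := by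
  intro n
  induction n using Nat.strong_induction_on with
  | _ n ih =>
  rcases Nat.eq_zero_or_pos n with h0 | hn
  · subst h0
    simp [dead]
  -- the last one up to `n`
  set S := (range (n + 1)).filter (fun t => a t = 1) with hS
  by_cases hSne : S.Nonempty
  swap
  · rw [not_nonempty_iff_eq_empty] at hSne
    obtain ⟨b, hb, hb1, hb2⟩ := hgap 0
    have hbn : n < b := by
      by_contra hc
      push Not at hc
      have : b ∈ S := by rw [hS, mem_filter, mem_range]; exact ⟨by omega, hb⟩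
      rw [hSne] at this
      exact absurd this (notMem_empty _)
    have h1 : (dead I n).card ≤ n := by
      refine (card_filter_le _ _).trans ?_
      rw [Nat.card_Icc]; omega
    omega
  set c := S.max' hSne with hc
  have hcS : c ∈ S := S.max'_mem hSne
  rw [hS, mem_filter, mem_range] at hcS
  obtain ⟨hcn, hac⟩ := hcS
  have hc1 : 1 ≤ c := by
    rcases Nat.eq_zero_or_pos c with h | h
    · rw [h, ha0] at hac; omega
    · exact h
  have hzero : ∀ t, c < t → t ≤ n → a t = 0 := by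
    intro t ht1 ht2
    by_contra hne
    have h1 : a t = 1 := by have := _ha t; omega
    have : t ∈ S := by rw [hS, mem_filter, mem_range]; exact ⟨by omega, h1⟩
    have := S.le_max' t this
    omega
  have ihc := ih (c - 1) (by omega)
  have hN : ∑ k ∈ range (c - 1 + 1), a k + 1 ≤ ∑ k ∈ range (n + 1), a k := by
    have e1 : c - 1 + 1 = c := by omega
    rw [e1]
    calc ∑ k ∈ range c, a k + 1 = ∑ k ∈ range (c + 1), a k := by rw [sum_range_succ, hac]
      _ ≤ ∑ k ∈ range (n + 1), a k :=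
        sum_le_sum_of_subset_of_nonneg (range_subset_range.2 (by omega)) fun _ _ _ => Nat.zero_le _
  have hsplit : Icc 1 n = Icc 1 (c - 1) ∪ Icc c n := by
    ext t; simp only [mem_Icc, mem_union]; omega
  have hdisj : Disjoint (Icc 1 (c - 1)) (Icc c n) := by
    rw [disjoint_left]; intro t; simp only [mem_Icc]; omega
  have hD : (dead I n).card = (dead I (c - 1)).card + ((Icc c n).filter (fun R => I R ≤ 0)).card := by
    unfold dead
    rw [hsplit, filter_union, card_union_of_disjoint (disjoint_filter_filter hdisj)]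
  have hL : (live I n).card = (live I (c - 1)).card + ((Icc c n).filter (fun R => 1 ≤ I R)).card := by
    unfold live
    rw [hsplit, filter_union, card_union_of_disjoint (disjoint_filter_filter hdisj)]
  by_cases hex : ∃ t, c ≤ t ∧ t ≤ n ∧ I t ≤ 0
  swap
  · have h1 : (Icc c n).filter (fun R => I R ≤ 0) = ∅ := by
      rw [filter_eq_empty_iff]
      intro t ht h2
      rw [mem_Icc] at ht
      exact hex ⟨t, ht.1, ht.2, h2⟩
    rw [h1, card_empty] at hD
    omega
  classical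
  set ρ := Nat.find hex with hρ
  obtain ⟨hρ1, hρ2, hρ3⟩ := Nat.find_spec hex
  have hmin : ∀ t, c ≤ t → t < ρ → 1 ≤ I t := by
    intro t ht1 ht2
    have := Nat.find_min hex ht2
    push Not at this
    have := this ht1 (by omega)
    omega
  have hneg : ∀ j, ρ + j ≤ n → I (ρ + j) ≤ 0 := by
    intro j
    induction j with
    | zero => intro _; simpa using hρ3
    | succ j ihj =>
      intro hj
      have h1 := hI (ρ + j)
      have h2 : a (ρ + j + 1) = 0 := hzero _ (by omega) (by omega)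
      have h3 := ihj (by omega)
      rw [h2] at h1
      have h4 : I (ρ + (j + 1)) = I (ρ + j + 1) := rfl
      rw [h4, h1]
      push_cast
      have : (0 : ℤ) ≤ rep a (ρ + j + 1) := Int.natCast_nonneg _
      omega
  have hrep : ∀ t, ρ < t → t + 2 ≤ n → rep a t = 0 := by
    intro t ht1 ht2
    by_contra hne
    have h0 : (1 : ℤ) ≤ rep a t := by
      have : 1 ≤ rep a t := Nat.one_le_iff_ne_zero.2 hne
      exact_mod_cast this
    obtain ⟨s, rfl⟩ : ∃ s, t = s + 1 := ⟨t - 1, by omega⟩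
    have h1 := hI s
    have h2 := hI (s + 1)
    have h3 := hI (s + 1 + 1)
    rw [hzero (s + 1) (by omega) (by omega)] at h1
    rw [hzero (s + 1 + 1) (by omega) (by omega)] at h2
    rw [hzero (s + 1 + 1 + 1) (by omega) (by omega)] at h3
    have h4 : I s ≤ 0 := by
      have := hneg (s - ρ) (by omega)
      rwa [show ρ + (s - ρ) = s by omega] at this
    have h5 : (0 : ℤ) ≤ rep a (s + 1 + 1) := Int.natCast_nonneg _
    have h6 : (0 : ℤ) ≤ rep a (s + 1 + 1 + 1) := Int.natCast_nonneg _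
    have h7 := hlow (s + 1 + 1 + 1)
    push_cast at h1 h2 h3
    omega
  have hlen : n + 1 - ρ ≤ (ρ - c) + 4 := by
    obtain ⟨b, hb, hb1, hb2⟩ := hgap (ρ - c)
    by_contra hcon
    push Not at hcon
    have h1 := hrep (c + b) (by omega) (by omega)
    have h2 : 1 ≤ rep a (c + b) := by
      unfold rep
      calc 1 = a c * a (c + b - c) := by rw [hac, show c + b - c = b by omega, hb]
        _ ≤ ∑ i ∈ range (c + b + 1), a i * a (c + b - i) :=
          single_le_sum (f := fun i => a i * a (c + b - i)) (fun _ _ => Nat.zero_le _)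
            (mem_range.2 (by omega))
    omega
  have hd2 : ((Icc c n).filter (fun R => I R ≤ 0)).card ≤ n + 1 - ρ := by
    calc ((Icc c n).filter (fun R => I R ≤ 0)).card ≤ (Icc ρ n).card := by
          refine card_le_card fun t ht => ?_
          rw [mem_filter, mem_Icc] at ht
          rw [mem_Icc]
          refine ⟨?_, ht.1.2⟩
          by_contra hlt
          push Not at hlt
          have := hmin t ht.1.1 hlt
          omega
      _ = n + 1 - ρ := Nat.card_Icc _ _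
  have hl2 : ρ - c ≤ ((Icc c n).filter (fun R => 1 ≤ I R)).card := by
    calc ρ - c = (Ico c ρ).card := (Nat.card_Ico _ _).symm
      _ ≤ _ := by
          refine card_le_card fun t ht => ?_
          rw [mem_Ico] at ht
          rw [mem_filter, mem_Icc]
          exact ⟨⟨ht.1, by omega⟩, hmin t ht.1 ht.2⟩
  omega

lemma sq_le_two_pow (M : ℕ) : 8 * M ^ 2 ≤ 9 * 2 ^ M := by
  induction M with
  | zero => norm_num
  | succ M ih =>
    rcases Nat.lt_or_ge M 3 with h | h
    · interval_cases M <;> norm_num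
    · have h2 : (M + 1) ^ 2 ≤ 2 * M ^ 2 := by nlinarith
      rw [pow_succ 2 M]
      omega

/-- the numerical inequality -/
lemma numeric (n K W : ℕ) (hn : 8 ≤ n) (hK : 1 ≤ K) (hKW : K ≤ W) (L : ℝ)
    (hL : ∀ M : ℕ, L ≤ (2 * K + 1) * W + (K ^ 2 + K + 1) * M + ((W : ℝ) ^ 2 + 2 * n + 8) / 2 ^ M)
    (hnL : (n : ℝ) ≤ 2 * L + 4 * (W + 1)) : n ≤ 100 * (K * W) := by
  by_contra hcon
  push Not at hcon
  have hnR : (8 : ℝ) ≤ n := by exact_mod_cast hn
  have hn0 : (0 : ℝ) < n := by linarith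
  have hKR : (1 : ℝ) ≤ K := by exact_mod_cast hK
  have hKWR : (K : ℝ) ≤ W := by exact_mod_cast hKW
  have hconR : 100 * ((K : ℝ) * W) < n := by exact_mod_cast hcon
  have hex : ∃ M : ℕ, 4 * ((W : ℝ) ^ 2 + 2 * n + 8) ≤ 2 ^ M * n := by
    obtain ⟨M, hM⟩ := pow_unbounded_of_one_lt (4 * ((W : ℝ) ^ 2 + 2 * n + 8)) (by norm_num : (1 : ℝ) < 2)
    refine ⟨M, hM.le.trans ?_⟩
    have : (0 : ℝ) < 2 ^ M := by positivity
    nlinarith
  classical
  set M := Nat.find hex with hM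
  have hM1 := Nat.find_spec hex
  rw [← hM] at hM1
  have hMpos : M ≠ 0 := by
    intro h
    rw [h] at hM1
    have : (0 : ℝ) ≤ (W : ℝ) ^ 2 := by positivity
    norm_num at hM1
    linarith
  obtain ⟨M', hM'⟩ := Nat.exists_eq_succ_of_ne_zero hMpos
  have hM2 : ¬ (4 * ((W : ℝ) ^ 2 + 2 * n + 8) ≤ 2 ^ M' * n) :=
    Nat.find_min hex (by rw [← hM]; omega)
  push Not at hM2
  have hMsq : (M : ℝ) ^ 2 ≤ 9 / 8 * 2 ^ M := by
    have := sq_le_two_pow M
    have h2 : (8 : ℝ) * (M : ℝ) ^ 2 ≤ 9 * 2 ^ M := by exact_mod_cast this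
    linarith
  have h2M : (2 : ℝ) ^ M = 2 * 2 ^ M' := by rw [hM', pow_succ]; ring
  have hMn : (M : ℝ) ^ 2 * n ≤ 9 * ((W : ℝ) ^ 2 + 3 * n) := by
    rw [h2M] at hMsq
    have h3 : (M : ℝ) ^ 2 * n ≤ 9 / 8 * (2 * 2 ^ M') * n := mul_le_mul_of_nonneg_right hMsq hn0.le
    have h4 : 9 / 8 * (2 * (2 : ℝ) ^ M') * n = 9 / 4 * (2 ^ M' * n) := by ring
    rw [h4] at h3
    nlinarith
  have hM0 : (0 : ℝ) ≤ M := Nat.cast_nonneg _
  set X : ℝ := (K : ℝ) * W with hX
  have hX0 : 1 ≤ X := by nlinarith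
  have hKX : (K : ℝ) ^ 2 ≤ X := by nlinarith
  have hKn : (K : ℝ) ^ 2 ≤ n / 100 := by linarith
  -- the key estimate
  have hkey : ((K : ℝ) ^ 2 * M) ^ 2 * n ≤ 28 * X ^ 2 * n := by
    have h1 : ((K : ℝ) ^ 2 * M) ^ 2 * n = (K : ℝ) ^ 4 * ((M : ℝ) ^ 2 * n) := by ring
    rw [h1]
    have h2 : (K : ℝ) ^ 4 * ((M : ℝ) ^ 2 * n) ≤ (K : ℝ) ^ 4 * (9 * ((W : ℝ) ^ 2 + 3 * n)) :=
      mul_le_mul_of_nonneg_left hMn (by positivity)
    have h3 : (K : ℝ) ^ 4 * (9 * ((W : ℝ) ^ 2 + 3 * n)) =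
        9 * (K : ℝ) ^ 2 * X ^ 2 + 27 * (K ^ 2) ^ 2 * n := by rw [hX]; ring
    rw [h3] at h2
    have h4 : 9 * (K : ℝ) ^ 2 * X ^ 2 ≤ 9 * (n / 100) * X ^ 2 := by
      have : 0 ≤ X ^ 2 := by positivity
      nlinarith
    have h5 : 27 * ((K : ℝ) ^ 2) ^ 2 * n ≤ 27 * X ^ 2 * n := by
      have h6 : ((K : ℝ) ^ 2) ^ 2 ≤ X ^ 2 := pow_le_pow_left₀ (by positivity) hKX 2
      nlinarith
    have h7 : 0 ≤ X ^ 2 * n := by positivity
    nlinarith
  have hkey2 : (K : ℝ) ^ 2 * M ≤ 5.3 * X := by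
    have h1 : ((K : ℝ) ^ 2 * M) ^ 2 ≤ 28 * X ^ 2 := le_of_mul_le_mul_right hkey hn0
    have h2 : ((K : ℝ) ^ 2 * M) ^ 2 ≤ (5.3 * X) ^ 2 := by nlinarith
    exact (pow_le_pow_iff_left₀ (by positivity) (by positivity) (by norm_num)).1 h2
  have hL1 := hL M
  have hlast : ((W : ℝ) ^ 2 + 2 * n + 8) / 2 ^ M ≤ n / 4 := by
    rw [div_le_iff₀ (by positivity)]
    linarith
  have hmid : ((K : ℝ) ^ 2 + K + 1) * M ≤ 3 * ((K : ℝ) ^ 2 * M) := by
    have h1 : (K : ℝ) ≤ K ^ 2 := by nlinarith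
    have h2 : (K : ℝ) ^ 2 + K + 1 ≤ 3 * (K : ℝ) ^ 2 := by linarith
    calc ((K : ℝ) ^ 2 + K + 1) * M ≤ (3 * (K : ℝ) ^ 2) * M := mul_le_mul_of_nonneg_right h2 hM0
      _ = 3 * ((K : ℝ) ^ 2 * M) := by ring
  have hW1 : (W : ℝ) ≤ X := by nlinarith
  have h2K : (2 * (K : ℝ) + 1) * W ≤ 3 * X := by
    have : (2 * (K : ℝ) + 1) * W = 2 * X + W := by rw [hX]; ring
    linarith
  linarith

end Pool.Agent.R474
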