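import Pool.Agent.R474.PlTable

/-!
Expansions with digits `0`, `1` and reserved places in the base `β`, `β ^ 3 = β + 1`.
-/

set_option autoImplicit false

open Finset

namespace Pool.Agent.R474.Pl

/-- the base and its rational bounds -/
structure Base (β : ℝ) : Prop where
  cube : β ^ 3 = β + 1
  lo : 1.3247179572 ≤ β
  hi : β ≤ 1.3247179573

theorem exists_base : ∃ β : ℝ, Base β := by
  have hc : ContinuousOn (fun x : ℝ => x ^ 3 - x - 1) (Set.Icc 1.3247179572 1.3247179573) := by
    fun_prop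
  have h := intermediate_value_Icc (by norm_num) hc
  have h0 : (0 : ℝ) ∈ Set.Icc ((fun x : ℝ => x ^ 3 - x - 1) 1.3247179572)
      ((fun x : ℝ => x ^ 3 - x - 1) 1.3247179573) := by
    constructor <;> norm_num
  obtain ⟨β, hβ, h1⟩ := h h0
  exact ⟨β, by simp only at h1; linarith, hβ.1, hβ.2⟩

/-- the value of a triple -/
def ev (β : ℝ) (t : ℤ × ℤ × ℤ) : ℝ := t.1 + t.2.1 * β + t.2.2 * β ^ 2

variable {β : ℝ}

lemma Base.sq_lo (h : Base β) : 1.7548776661 ≤ β ^ 2 := by
  have h1 := h.lo
  nlinarith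

lemma Base.sq_hi (h : Base β) : β ^ 2 ≤ 1.7548776664 := by
  have h1 := h.hi
  have h2 := h.lo
  nlinarith

lemma Base.pos (h : Base β) : 0 < β := by have := h.lo; linarith

lemma ev_step (h : Base β) (t : ℤ × ℤ × ℤ) (d : ℤ) : ev β (step t d) = β * ev β t + d := by
  unfold ev step
  push_cast
  linear_combination (-(t.2.2 : ℝ)) * h.cube

lemma ev_le_ub (h : Base β) (t : ℤ × ℤ × ℤ) : ev β t * 10000000000 ≤ (ub t : ℝ) := by
  have h1 := h.lo
  have h2 := h.hi
  have h3 := h.sq_lo
  have h4 := h.sq_hi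
  unfold ev ub
  push_cast
  have e1 : (t.2.1 : ℝ) * β * 10000000000 ≤
      ((if 0 ≤ t.2.1 then t.2.1 * 13247179573 else t.2.1 * 13247179572 : ℤ) : ℝ) := by
    split_ifs with h0
    · have : (0 : ℝ) ≤ t.2.1 := by exact_mod_cast h0
      push_cast
      nlinarith
    · have : (t.2.1 : ℝ) ≤ 0 := by exact_mod_cast (not_le.1 h0).le
      push_cast
      nlinarith
  have e2 : (t.2.2 : ℝ) * β ^ 2 * 10000000000 ≤
      ((if 0 ≤ t.2.2 then t.2.2 * 17548776664 else t.2.2 * 17548776661 : ℤ) : ℝ) := by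
    split_ifs with h0
    · have : (0 : ℝ) ≤ t.2.2 := by exact_mod_cast h0
      push_cast
      nlinarith
    · have : (t.2.2 : ℝ) ≤ 0 := by exact_mod_cast (not_le.1 h0).le
      push_cast
      nlinarith
  push_cast at e1 e2
  linarith

lemma lb_le_ev (h : Base β) (t : ℤ × ℤ × ℤ) : (lb t : ℝ) ≤ ev β t * 10000000000 := by
  have h1 := h.lo
  have h2 := h.hi
  have h3 := h.sq_lo
  have h4 := h.sq_hi
  unfold ev lb
  push_cast
  have e1 : ((if 0 ≤ t.2.1 then t.2.1 * 13247179572 else t.2.1 * 13247179573 : ℤ) : ℝ) ≤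
      (t.2.1 : ℝ) * β * 10000000000 := by
    split_ifs with h0
    · have : (0 : ℝ) ≤ t.2.1 := by exact_mod_cast h0
      push_cast
      nlinarith
    · have : (t.2.1 : ℝ) ≤ 0 := by exact_mod_cast (not_le.1 h0).le
      push_cast
      nlinarith
  have e2 : ((if 0 ≤ t.2.2 then t.2.2 * 17548776661 else t.2.2 * 17548776664 : ℤ) : ℝ) ≤
      (t.2.2 : ℝ) * β ^ 2 * 10000000000 := by
    split_ifs with h0
    · have : (0 : ℝ) ≤ t.2.2 := by exact_mod_cast h0
      push_cast
      nlinarith
    · have : (t.2.2 : ℝ) ≤ 0 := by exact_mod_cast (not_le.1 h0).le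
      push_cast
      nlinarith
  push_cast at e1 e2
  linarith

/-! ### soundness of the tables -/

lemma mem_tri {t : ℤ × ℤ × ℤ} (h : mem t = true) : ∃ a b c : ℕ, a < 16 ∧ b < 16 ∧ c < 16 ∧
    t = tri a b c ∧ mask.testBit (code a b c) = true := by
  obtain ⟨x, y, z⟩ := t
  unfold mem at h
  simp only [Bool.and_eq_true, decide_eq_true_eq] at h
  obtain ⟨⟨⟨⟨⟨⟨h1, h2⟩, h3⟩, h4⟩, h5⟩, h6⟩, h7⟩ := h
  refine ⟨(x + 8).toNat, (y + 8).toNat, (z + 8).toNat, by omega, by omega, by omega, ?_, h7⟩
  unfold tri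
  ext <;> simp <;> omega

lemma closed {t : ℤ × ℤ × ℤ} (h : mem t = true) (d : ℤ) (hd1 : -1 ≤ d) (hd2 : d ≤ 2) :
    okStep t d = true := by
  obtain ⟨a, b, c, ha, hb, hc, rfl, hm⟩ := mem_tri h
  have h1 := chk1_true
  unfold chk1 at h1
  rw [List.all_eq_true] at h1
  have h2 := h1 c (List.mem_range.2 hc)
  rw [List.all_eq_true] at h2
  have h3 := h2 b (List.mem_range.2 hb)
  rw [List.all_eq_true] at h3
  have h4 := h3 a (List.mem_range.2 ha)
  rw [hm] at h4
  simp only [Bool.not_true, Bool.false_or, Bool.and_eq_true] at h4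
  obtain ⟨⟨⟨k1, k2⟩, k3⟩, k4⟩ := h4
  have : d = -1 ∨ d = 0 ∨ d = 1 ∨ d = 2 := by omega
  rcases this with rfl | rfl | rfl | rfl
  · exact k1
  · exact k2
  · exact k3
  · exact k4

lemma expand {t : ℤ × ℤ × ℤ} (h : mem t = true) (h0 : 0 ≤ ub t) : ∃ w : ℕ, okRep t w = true := by
  obtain ⟨a, b, c, ha, hb, hc, rfl, hm⟩ := mem_tri h
  have h1 := chk2_true
  unfold chk2 at h1
  rw [List.all_eq_true] at h1
  have h2 := h1 c (List.mem_range.2 hc)
  rw [List.all_eq_true] at h2
  have h3 := h2 b (List.mem_range.2 hb)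
  rw [List.all_eq_true] at h3
  have h4 := h3 a (List.mem_range.2 ha)
  rw [hm] at h4
  simp only [Bool.not_true, Bool.false_or, Bool.or_eq_true, decide_eq_true_eq] at h4
  rcases h4 with h4 | h4
  · omega
  · exact ⟨_, h4⟩

lemma ev_run (h : Base β) (d : ℕ → ℤ) (m : ℕ) :
    ev β (run d m) = ∑ i ∈ range m, (d i : ℝ) * β ^ (m - 1 - i) := by
  induction m with
  | zero => simp [run, ev]
  | succ m ih =>
    rw [run, ev_step h, ih, sum_range_succ, mul_sum]
    congr 1
    · refine sum_congr rfl fun i hi => ?_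
      have := mem_range.1 hi
      have e : m + 1 - 1 - i = (m - 1 - i) + 1 := by omega
      rw [e, pow_succ]
      ring
    · simp

lemma ev_shift (h : Base β) (t : ℤ × ℤ × ℤ) (m : ℕ) : ev β (shift t m) = β ^ m * ev β t := by
  induction m with
  | zero => simp [shift]
  | succ m ih =>
    rw [shift, ev_step h, ih, pow_succ]
    push_cast
    ring

/-- the allowed low exponents -/
def lowE : Finset ℕ := {0, 2, 4, 6, 8, 10, 12, 14, 16, 18, 20, 21, 23}

/-- states with a nonnegative value have an expansion with the allowed low exponents -/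
lemma low_expand (h : Base β) {t : ℤ × ℤ × ℤ} (ht : mem t = true) (h0 : 0 ≤ ev β t) :
    ∃ S ⊆ lowE, β ^ 20 * ev β t = ∑ i ∈ S, β ^ i := by
  have h1 : 0 ≤ ub t := by
    have h2 := ev_le_ub h t
    have h3 : (0 : ℝ) ≤ (ub t : ℝ) := le_trans (by positivity) h2
    exact_mod_cast h3
  obtain ⟨w, hw⟩ := expand ht h1
  unfold okRep at hw
  rw [Bool.and_eq_true, decide_eq_true_eq, List.all_eq_true] at hw
  obtain ⟨h2, h3⟩ := hw
  refine ⟨(range 24).filter (fun i => w.testBit i = true), ?_, ?_⟩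
  · intro i hi
    rw [mem_filter, mem_range] at hi
    have h4 := h3 i (List.mem_range.2 hi.1)
    rw [hi.2] at h4
    simp only [Bool.not_true, Bool.false_or] at h4
    have h5 : ∀ i < 24, allowed.testBit i = true → i ∈ lowE := by decide
    exact h5 i hi.1 h4
  · rw [← ev_shift h, ← h2, ev_run h, sum_filter]
    rw [← sum_range_reflect (fun i => if w.testBit i = true then β ^ i else 0) 24]
    refine sum_congr rfl fun i hi => ?_
    have := mem_range.1 hi
    have e1 : 24 - 1 - i = 23 - i := by omega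
    rw [e1]
    split_ifs <;> simp

/-! ### the run of the states -/

lemma Base.four (h : Base β) : β ^ 4 * (β - 1) = 1 := by
  have h1 := h.cube
  linear_combination (β ^ 2 - β) * h1 + h1

lemma sum_le_two (h : Base β) (d : ℕ → ℤ) (hd : ∀ i, d i ≤ 2) (J : ℕ) :
    ∑ j ∈ range J, (d j : ℝ) * β ^ j ≤ 2 * β ^ 4 * (β ^ J - 1) := by
  have h4 := h.four
  have hp := h.pos
  induction J with
  | zero => simp
  | succ J ih =>
    rw [sum_range_succ]
    have h1 : (d J : ℝ) ≤ 2 := by exact_mod_cast hd J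
    have h2 : (0 : ℝ) < β ^ J := by positivity
    have h3 : (d J : ℝ) * β ^ J ≤ 2 * β ^ J := mul_le_mul_of_nonneg_right h1 h2.le
    have h5 : 2 * β ^ 4 * (β ^ (J + 1) - 1) = 2 * β ^ 4 * (β ^ J - 1) + 2 * β ^ J := by
      rw [pow_succ]
      linear_combination (2 * β ^ J) * h4
    rw [h5]
    linarith

lemma neg_sum_le (h : Base β) (d : ℕ → ℤ) (hd : ∀ i, -1 ≤ d i) (J : ℕ) :
    β ^ 5 - ∑ j ∈ range J, (d j : ℝ) * β ^ j ≤ β ^ 5 * β ^ J := by
  have hp := h.pos
  have h4 := h.four
  induction J with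
  | zero => simp
  | succ J ih =>
    rw [sum_range_succ]
    have h1 : (-1 : ℝ) ≤ d J := by exact_mod_cast hd J
    have h2 : (0 : ℝ) < β ^ J := by positivity
    have h3 : -1 * β ^ J ≤ (d J : ℝ) * β ^ J := mul_le_mul_of_nonneg_right h1 h2.le
    have h5 : β ^ 5 * β ^ (J + 1) - β ^ 5 * β ^ J = β * β ^ J := by
      rw [pow_succ]
      linear_combination (β * β ^ J) * h4
    have h6 : 1 ≤ β := by have := h.lo; linarith
    nlinarith

lemma suffix (h : Base β) (d : ℕ → ℤ) (N m : ℕ) (hm : m ≤ N) :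
    ∑ j ∈ range N, (d j : ℝ) * β ^ j = β ^ (N - m) * ev β (run (fun i => d (N - 1 - i)) m) +
      ∑ j ∈ range (N - m), (d j : ℝ) * β ^ j := by
  induction m with
  | zero => simp [run, ev]
  | succ m ih =>
    rw [ih (by omega), run, ev_step h]
    have e1 : N - m = N - (m + 1) + 1 := by omega
    have e2 : N - 1 - m = N - (m + 1) := by omega
    rw [e1, sum_range_succ, pow_succ, e2]
    ring

/-- The value of digits `-1, …, 2`, if between `0` and `β ^ 5`, is the value of a state. -/
lemma state (h : Base β) (d : ℕ → ℤ) (hd1 : ∀ i, -1 ≤ d i) (hd2 : ∀ i, d i ≤ 2) (N : ℕ)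
    (h0 : 0 ≤ ∑ j ∈ range N, (d j : ℝ) * β ^ j) (h1 : ∑ j ∈ range N, (d j : ℝ) * β ^ j < β ^ 5) :
    ∃ t : ℤ × ℤ × ℤ, mem t = true ∧ ev β t = ∑ j ∈ range N, (d j : ℝ) * β ^ j := by
  have hp := h.pos
  have key : ∀ m ≤ N, mem (run (fun i => d (N - 1 - i)) m) = true := by
    intro m
    induction m with
    | zero =>
      intro _
      have h0 : mem (0, 0, 0) = true := by decide +kernel
      exact h0
    | succ m ih =>
      intro hm
      have h2 := closed (ih (by omega)) (d (N - 1 - m)) (hd1 _) (hd2 _)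
      unfold okStep at h2
      simp only [Bool.or_eq_true, decide_eq_true_eq] at h2
      have h3 := suffix h d N (m + 1) hm
      set t := run (fun i => d (N - 1 - i)) (m + 1) with ht
      have ht' : t = step (run (fun i => d (N - 1 - i)) m) (d (N - 1 - m)) := rfl
      rw [← ht'] at h2
      have h4 : (0 : ℝ) < β ^ (N - (m + 1)) := by positivity
      have h5 := sum_le_two h d hd2 (N - (m + 1))
      have h6 := neg_sum_le h d hd1 (N - (m + 1))
      have h7 : -(2 * β ^ 4) ≤ ev β t := by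
        by_contra hcon
        push Not at hcon
        have h8 : β ^ (N - (m + 1)) * ev β t < β ^ (N - (m + 1)) * (-(2 * β ^ 4)) :=
          mul_lt_mul_of_pos_left hcon h4
        have h9 : (0 : ℝ) < β ^ 4 := by positivity
        nlinarith
      have h8 : ev β t < β ^ 5 := by
        by_contra hcon
        push Not at hcon
        have h9 : β ^ (N - (m + 1)) * β ^ 5 ≤ β ^ (N - (m + 1)) * ev β t :=
          mul_le_mul_of_nonneg_left hcon h4.le
        nlinarith
      have hlo := h.lo
      have hhi := h.hi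
      have hlo2 := h.sq_lo
      have hhi2 := h.sq_hi
      have e4 : β ^ 4 = β ^ 2 + β := by
        have := h.cube
        linear_combination β * this
      have e5 : β ^ 5 = β ^ 2 + β + 1 := by
        have := h.cube
        linear_combination (β ^ 2 + 1) * this
      rw [e4] at h7
      rw [e5] at h8
      rcases h2 with (h2 | h2) | h2
      · exfalso
        have h9 := ev_le_ub h t
        have h10 : (ub t : ℝ) ≤ -61600000000 := by exact_mod_cast h2
        linarith
      · exfalso
        have h9 := lb_le_ev h t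
        have h10 : (40800000000 : ℝ) ≤ (lb t : ℝ) := by exact_mod_cast h2
        linarith
      · exact h2
  refine ⟨_, key N le_rfl, ?_⟩
  have h2 := suffix h d N N le_rfl
  rw [h2]
  simp

/-! ### the greedy expansion at the high exponents -/

/-- the sum of the powers of `β` with the given exponents -/
def psum (l : List ℕ) : ℤ × ℤ × ℤ := (l.map fun e => shift (1, 0, 0) e).sum

/-- `x - y` for triples -/
def dif (x y : ℤ × ℤ × ℤ) : ℤ × ℤ × ℤ := (x.1 - y.1, x.2.1 - y.2.1, x.2.2 - y.2.2)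

/-- every power is at most the sum of the later ones and `β ^ 5` -/
def good : List ℕ → Bool
  | [] => true
  | e :: l => decide (0 ≤ lb (dif (psum (5 :: l)) (shift (1, 0, 0) e))) && good l

lemma ev_add (x y : ℤ × ℤ × ℤ) : ev β (x + y) = ev β x + ev β y := by
  unfold ev
  simp only [Prod.fst_add, Prod.snd_add]
  push_cast
  ring

lemma ev_dif (x y : ℤ × ℤ × ℤ) : ev β (dif x y) = ev β x - ev β y := by
  unfold ev dif
  push_cast
  ring

lemma ev_psum (h : Base β) (l : List ℕ) : ev β (psum l) = (l.map fun e => β ^ e).sum := by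
  induction l with
  | nil => simp [psum, ev]
  | cons e l ih =>
    have e1 : psum (e :: l) = shift (1, 0, 0) e + psum l := by simp [psum]
    rw [e1, ev_add, ih, ev_shift h, List.map_cons, List.sum_cons]
    simp [ev]

lemma greedy (h : Base β) : ∀ (l : List ℕ), l.Nodup → good l = true → ∀ x : ℝ, 0 ≤ x →
    x < (l.map fun e => β ^ e).sum + β ^ 5 →
    ∃ S ⊆ l.toFinset, 0 ≤ x - ∑ i ∈ S, β ^ i ∧ x - ∑ i ∈ S, β ^ i < β ^ 5 := by
  intro l
  induction l with
  | nil =>
    intro _ _ x h0 h1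
    refine ⟨∅, by simp, by simpa using h0, by simpa using h1⟩
  | cons e l ih =>
    intro hnd hg x h0 h1
    rw [List.nodup_cons] at hnd
    unfold good at hg
    rw [Bool.and_eq_true, decide_eq_true_eq] at hg
    obtain ⟨hg1, hg2⟩ := hg
    rw [List.map_cons, List.sum_cons] at h1
    by_cases hx : β ^ e ≤ x
    · obtain ⟨S, hS, h2, h3⟩ := ih hnd.2 hg2 (x - β ^ e) (by linarith) (by linarith)
      have he : e ∉ S := fun he => hnd.1 (List.mem_toFinset.1 (hS he))
      refine ⟨insert e S, ?_, ?_, ?_⟩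
      · rw [List.toFinset_cons]
        exact insert_subset_insert _ hS
      · rw [sum_insert he]; linarith
      · rw [sum_insert he]; linarith
    · push Not at hx
      have h4 := lb_le_ev h (dif (psum (5 :: l)) (shift (1, 0, 0) e))
      rw [ev_dif, ev_psum h, ev_shift h, List.map_cons, List.sum_cons] at h4
      have h5 : (0 : ℝ) ≤ (lb (dif (psum (5 :: l)) (shift (1, 0, 0) e)) : ℝ) := by
        exact_mod_cast hg1
      have h6 : ev β (1, 0, 0) = 1 := by simp [ev]
      rw [h6] at h4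
      obtain ⟨S, hS, h2, h3⟩ := ih hnd.2 hg2 x h0 (by linarith)
      refine ⟨S, hS.trans ?_, h2, h3⟩
      rw [List.toFinset_cons]
      exact subset_insert _ _

/-- the high exponents -/
def highL : List ℕ := [31, 29, 26, 24, 22, 20, 18, 16, 14, 12, 10, 8, 6, 5]

/-- Every sum of two blocks of `27` binary digits has an expansion with digits `0` and `1` whose
exponents, increased by `20`, are in `lowE` or `highL + 20`. -/
theorem decomp (h : Base β) (w : ℕ → ℕ) (hw : ∀ i, w i ≤ 2) :
    ∃ S1 ⊆ highL.toFinset, ∃ S2 ⊆ lowE,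
      β ^ 20 * ∑ i ∈ range 27, (w i : ℝ) * β ^ i =
        β ^ 20 * ∑ i ∈ S1, β ^ i + ∑ i ∈ S2, β ^ i := by
  have hp := h.pos
  have h0 : 0 ≤ ∑ i ∈ range 27, (w i : ℝ) * β ^ i := sum_nonneg fun i _ => by positivity
  have h1 : ∑ i ∈ range 27, (w i : ℝ) * β ^ i <
      (highL.map fun e => β ^ e).sum + β ^ 5 := by
    have h2 : ∑ i ∈ range 27, (w i : ℝ) * β ^ i ≤ ∑ i ∈ range 27, (2 : ℝ) * β ^ i := by
      refine sum_le_sum fun i _ => ?_
      have h3 : (w i : ℝ) ≤ 2 := by exact_mod_cast hw i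
      exact mul_le_mul_of_nonneg_right h3 (by positivity)
    have h3 : ∑ i ∈ range 27, (2 : ℝ) * β ^ i =
        ((List.range 27 ++ List.range 27).map fun e => β ^ e).sum := by
      simp only [List.range, List.range.loop, sum_range_succ, sum_range_zero, List.map_cons,
        List.sum_cons, List.map_nil, List.sum_nil, List.cons_append, List.nil_append]
      try ring
    have h4 : 0 < lb (dif (psum (5 :: highL)) (psum (List.range 27 ++ List.range 27))) := by
      decide +kernel
    have h5 := lb_le_ev h (dif (psum (5 :: highL)) (psum (List.range 27 ++ List.range 27)))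
    rw [ev_dif, ev_psum h, ev_psum h, List.map_cons, List.sum_cons] at h5
    have h6 : (0 : ℝ) < (lb (dif (psum (5 :: highL)) (psum (List.range 27 ++ List.range 27))) : ℝ) := by
      exact_mod_cast h4
    rw [h3] at h2
    linarith
  obtain ⟨S1, hS1, h2, h3⟩ := greedy h highL (by decide) (by decide +kernel) _ h0 h1
  -- the digits of the rest
  have hsub : S1 ⊆ range 32 := by
    intro i hi
    have h4 : ∀ i ∈ highL.toFinset, i ∈ range 32 := by decide
    exact h4 i (hS1 hi)
  have hsum : ∑ i ∈ range 27, (w i : ℝ) * β ^ i - ∑ i ∈ S1, β ^ i =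
      ∑ j ∈ range 32, (((if j < 27 then (w j : ℤ) else 0) - (if j ∈ S1 then 1 else 0) : ℤ) : ℝ) *
        β ^ j := by
    have e1 : ∑ i ∈ S1, β ^ i = ∑ j ∈ range 32, (if j ∈ S1 then β ^ j else 0) := by
      rw [← sum_filter]
      congr 1
      ext i
      rw [mem_filter]
      exact ⟨fun hi => ⟨hsub hi, hi⟩, fun hi => hi.2⟩
    have e2 : ∑ i ∈ range 27, (w i : ℝ) * β ^ i =
        ∑ j ∈ range 32, (if j < 27 then (w j : ℝ) * β ^ j else 0) := by
      rw [← sum_filter]
      refine sum_congr ?_ fun _ _ => rfl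
      ext i
      simp only [mem_filter, mem_range]
      omega
    rw [e1, e2, ← sum_sub_distrib]
    refine sum_congr rfl fun j _ => ?_
    split_ifs <;> push_cast <;> ring
  rw [hsum] at h2 h3
  obtain ⟨t, ht, hev⟩ := state h
    (fun j => (if j < 27 then (w j : ℤ) else 0) - (if j ∈ S1 then 1 else 0))
    (fun i => by have := hw i; split_ifs <;> omega)
    (fun i => by have := hw i; split_ifs <;> omega) 32 h2 h3
  obtain ⟨S2, hS2, h4⟩ := low_expand h ht (by rw [hev]; exact h2)
  refine ⟨S1, hS1, S2, hS2, ?_⟩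
  rw [← h4, hev, ← hsum]
  ring

end Pool.Agent.R474.Pl
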