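import Pool.Agent.R474.Main

/-!
The covering inequality for the ones and for the zeros of `√2`.
-/

set_option autoImplicit false

open Finset

namespace Pool.Agent.R474

/-- a numerical inequality for the ones -/
lemma numeric1 (n K W : ℕ) (hn : 8 ≤ n) (hK : 1 ≤ K) (hKW : K ≤ W) (L : ℝ)
    (hL : ∀ M : ℕ, L ≤ (2 * K + 1) * W + (K ^ 2 + K + 1) * M + ((W : ℝ) ^ 2 + 4 * n + 8) / 2 ^ M)
    (hnL : (n : ℝ) ≤ L) : n ≤ 100 * (K * W) := by
  by_contra hcon
  push Not at hcon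
  have hnR : (8 : ℝ) ≤ n := by exact_mod_cast hn
  have hn0 : (0 : ℝ) < n := by linarith
  have hKR : (1 : ℝ) ≤ K := by exact_mod_cast hK
  have hKWR : (K : ℝ) ≤ W := by exact_mod_cast hKW
  have hconR : 100 * ((K : ℝ) * W) < n := by exact_mod_cast hcon
  have hex : ∃ M : ℕ, 4 * ((W : ℝ) ^ 2 + 4 * n + 8) ≤ 2 ^ M * n := by
    obtain ⟨M, hM⟩ := pow_unbounded_of_one_lt (4 * ((W : ℝ) ^ 2 + 4 * n + 8)) (by norm_num : (1 : ℝ) < 2)
    refine ⟨M, hM.le.trans ?_⟩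
    have : (0 : ℝ) < 2 ^ M := by positivity
    nlinarith
  classical
  set M := Nat.find hex with hM
  have hM1 := Nat.find_spec hex
  rw [← hM] at hM1
  have hMpos : M ≠ 0 := by
    intro h
    rw [h] at hM1
    have : (0 : ℝ) ≤ (W : ℝ) ^ 2 := by positivity
    norm_num at hM1
    linarith
  obtain ⟨M', hM'⟩ := Nat.exists_eq_succ_of_ne_zero hMpos
  have hM2 : ¬ (4 * ((W : ℝ) ^ 2 + 4 * n + 8) ≤ 2 ^ M' * n) :=
    Nat.find_min hex (by rw [← hM]; omega)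
  push Not at hM2
  have hMsq : (M : ℝ) ^ 2 ≤ 9 / 8 * 2 ^ M := by
    have := sq_le_two_pow M
    have h2 : (8 : ℝ) * (M : ℝ) ^ 2 ≤ 9 * 2 ^ M := by exact_mod_cast this
    linarith
  have h2M : (2 : ℝ) ^ M = 2 * 2 ^ M' := by rw [hM', pow_succ]; ring
  have hMn : (M : ℝ) ^ 2 * n ≤ 9 * ((W : ℝ) ^ 2 + 5 * n) := by
    rw [h2M] at hMsq
    have h3 : (M : ℝ) ^ 2 * n ≤ 9 / 8 * (2 * 2 ^ M') * n := mul_le_mul_of_nonneg_right hMsq hn0.le
    have h4 : 9 / 8 * (2 * (2 : ℝ) ^ M') * n = 9 / 4 * (2 ^ M' * n) := by ring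
    rw [h4] at h3
    nlinarith
  have hM0 : (0 : ℝ) ≤ M := Nat.cast_nonneg _
  set X : ℝ := (K : ℝ) * W with hX
  have hX0 : 1 ≤ X := by nlinarith
  have hKX : (K : ℝ) ^ 2 ≤ X := by nlinarith
  have hKn : (K : ℝ) ^ 2 ≤ n / 100 := by linarith
  have hkey : ((K : ℝ) ^ 2 * M) ^ 2 * n ≤ 46 * X ^ 2 * n := by
    have h1 : ((K : ℝ) ^ 2 * M) ^ 2 * n = (K : ℝ) ^ 4 * ((M : ℝ) ^ 2 * n) := by ring
    rw [h1]
    have h2 : (K : ℝ) ^ 4 * ((M : ℝ) ^ 2 * n) ≤ (K : ℝ) ^ 4 * (9 * ((W : ℝ) ^ 2 + 5 * n)) :=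
      mul_le_mul_of_nonneg_left hMn (by positivity)
    have h3 : (K : ℝ) ^ 4 * (9 * ((W : ℝ) ^ 2 + 5 * n)) =
        9 * (K : ℝ) ^ 2 * X ^ 2 + 45 * (K ^ 2) ^ 2 * n := by rw [hX]; ring
    rw [h3] at h2
    have h4 : 9 * (K : ℝ) ^ 2 * X ^ 2 ≤ 9 * (n / 100) * X ^ 2 := by
      have : 0 ≤ X ^ 2 := by positivity
      nlinarith
    have h5 : 45 * ((K : ℝ) ^ 2) ^ 2 * n ≤ 45 * X ^ 2 * n := by
      have h6 : ((K : ℝ) ^ 2) ^ 2 ≤ X ^ 2 := pow_le_pow_left₀ (by positivity) hKX 2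
      nlinarith
    have h7 : 0 ≤ X ^ 2 * n := by positivity
    nlinarith
  have hkey2 : (K : ℝ) ^ 2 * M ≤ 7 * X := by
    have h1 : ((K : ℝ) ^ 2 * M) ^ 2 ≤ 46 * X ^ 2 := le_of_mul_le_mul_right hkey hn0
    have h2 : ((K : ℝ) ^ 2 * M) ^ 2 ≤ (7 * X) ^ 2 := by nlinarith
    exact (pow_le_pow_iff_left₀ (by positivity) (by positivity) (by norm_num)).1 h2
  have hL1 := hL M
  have hlast : ((W : ℝ) ^ 2 + 4 * n + 8) / 2 ^ M ≤ n / 4 := by
    rw [div_le_iff₀ (by positivity)]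
    linarith
  have hmid : ((K : ℝ) ^ 2 + K + 1) * M ≤ 3 * ((K : ℝ) ^ 2 * M) := by
    have h1 : (K : ℝ) ≤ K ^ 2 := by nlinarith
    have h2 : (K : ℝ) ^ 2 + K + 1 ≤ 3 * (K : ℝ) ^ 2 := by linarith
    calc ((K : ℝ) ^ 2 + K + 1) * M ≤ (3 * (K : ℝ) ^ 2) * M := mul_le_mul_of_nonneg_right h2 hM0
      _ = 3 * ((K : ℝ) ^ 2 * M) := by ring
  have hW1 : (W : ℝ) ≤ X := by nlinarith
  have h2K : (2 * (K : ℝ) + 1) * W ≤ 3 * X := by
    have : (2 * (K : ℝ) + 1) * W = 2 * X + W := by rw [hX]; ring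
    linarith
  linarith

/-- the integer formed by the first `R` binary digits of `√2` -/
noncomputable def U (R : ℕ) : ℕ := ⌊Real.sqrt 2 * 2 ^ R⌋₊

/-- the binary digits of `√2` -/
noncomputable def dg (R : ℕ) : ℕ := U R % 2

lemma sqrt_pos : 0 < Real.sqrt 2 := Real.sqrt_pos.2 (by norm_num)

lemma U_le (R : ℕ) : (U R : ℝ) ≤ Real.sqrt 2 * 2 ^ R :=
  Nat.floor_le (by positivity)

lemma lt_U (R : ℕ) : Real.sqrt 2 * 2 ^ R < U R + 1 := Nat.lt_floor_add_one _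

lemma sqrt_sq : Real.sqrt 2 * Real.sqrt 2 = 2 := Real.mul_self_sqrt (by norm_num)

lemma U_ne (R : ℕ) (m : ℕ) : (m : ℝ) ≠ Real.sqrt 2 * 2 ^ R := by
  intro h
  have h1 : Irrational (Real.sqrt 2 * ((2 ^ R : ℕ) : ℝ)) := irrational_sqrt_two.mul_natCast (by positivity)
  apply h1
  exact ⟨(m : ℚ), by push_cast; exact h⟩

lemma U_succ (R : ℕ) : U (R + 1) = 2 * U R + dg (R + 1) := by
  have h1 : U (R + 1) / 2 = U R := by
    unfold U
    rw [← Nat.floor_div_natCast]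
    congr 1
    rw [pow_succ]
    push_cast
    ring
  unfold dg
  omega

lemma U_zero : U 0 = 1 := by
  unfold U
  rw [Nat.floor_eq_iff (by positivity)]
  have h := sqrt_sq
  have h2 := sqrt_pos
  constructor
  · push_cast; nlinarith
  · push_cast; nlinarith

lemma dg_le (R : ℕ) : dg R ≤ 1 := by unfold dg; omega

/-- the ones of `√2 - 1` -/
noncomputable def ones (k : ℕ) : ℕ := if k = 0 then 0 else dg k

/-- the ones of `2 - √2`, that is, the zeros of `√2` -/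
noncomputable def zers (k : ℕ) : ℕ := if k = 0 then 0 else 1 - dg k

lemma V_ones (R : ℕ) : V ones R + 2 ^ R = U R := by
  induction R with
  | zero => simp [V, ones, U_zero]
  | succ R ih =>
    rw [V, U_succ]
    simp only [ones, Nat.succ_ne_zero, if_false]
    rw [pow_succ]
    omega

lemma V_zers (R : ℕ) : V zers R + U R + 1 = 2 ^ (R + 1) := by
  induction R with
  | zero => simp [V, zers, U_zero]
  | succ R ih =>
    rw [V, U_succ]
    simp only [zers, Nat.succ_ne_zero, if_false]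
    have h := dg_le (R + 1)
    rw [pow_succ 2 (R + 1)]
    omega

lemma exp_ones : Exp ones (Real.sqrt 2 - 1) where
  le_one := by
    intro k; unfold ones; split_ifs
    · omega
    · exact dg_le k
  pos := by
    intro R
    have h1 : ((V ones R : ℕ) : ℝ) + 2 ^ R = U R := by exact_mod_cast V_ones R
    have h2 := U_le R
    have h3 := U_ne R (U R)
    have h4 : (U R : ℝ) < Real.sqrt 2 * 2 ^ R := lt_of_le_of_ne h2 h3
    linarith
  lt := by
    intro R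
    have h1 : ((V ones R : ℕ) : ℝ) + 2 ^ R = U R := by exact_mod_cast V_ones R
    have h2 := lt_U R
    linarith

lemma exp_zers : Exp zers (2 - Real.sqrt 2) where
  le_one := by
    intro k; unfold zers; split_ifs <;> omega
  pos := by
    intro R
    have h1 : ((V zers R : ℕ) : ℝ) + U R + 1 = 2 ^ (R + 1) := by exact_mod_cast V_zers R
    have h2 := lt_U R
    rw [pow_succ] at h1
    linarith
  lt := by
    intro R
    have h1 : ((V zers R : ℕ) : ℝ) + U R + 1 = 2 ^ (R + 1) := by exact_mod_cast V_zers R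
    have h2 := U_le R
    have h3 := U_ne R (U R)
    have h4 : (U R : ℝ) < Real.sqrt 2 * 2 ^ R := lt_of_le_of_ne h2 h3
    rw [pow_succ] at h1
    linarith

/-- the integer sequence for the ones -/
noncomputable def I1 (R : ℕ) : ℤ := 2 ^ R - P ones R - 2 * V ones R

/-- the integer sequence for the zeros -/
noncomputable def I0 (R : ℕ) : ℤ := 4 * V zers R - 2 ^ (R + 1) - P zers R

lemma I1_succ (R : ℕ) : I1 (R + 1) = 2 * I1 R - rep ones (R + 1) + (-2) * ones (R + 1) := by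
  unfold I1
  rw [P, V]
  push_cast
  ring

lemma I0_succ (R : ℕ) : I0 (R + 1) = 2 * I0 R - rep zers (R + 1) + 4 * zers (R + 1) := by
  unfold I0
  rw [P, V]
  push_cast
  ring

lemma I1_eq (R : ℕ) : (I1 R : ℝ) = T ones (Real.sqrt 2 - 1) R +
    2 * (2 ^ R * (Real.sqrt 2 - 1) - V ones R) := by
  unfold I1 T
  push_cast
  have h := sqrt_sq
  linear_combination (-(2 : ℝ) ^ R) * h

lemma I0_eq (R : ℕ) : (I0 R : ℝ) = T zers (2 - Real.sqrt 2) R -
    4 * (2 ^ R * (2 - Real.sqrt 2) - V zers R) := by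
  unfold I0 T
  push_cast
  have h := sqrt_sq
  rw [pow_succ]
  linear_combination (-(2 : ℝ) ^ R) * h

lemma I1_pos (R : ℕ) : 1 ≤ I1 R := by
  have h1 := T_pos exp_ones R
  have h2 := exp_ones.pos R
  have h3 : (0 : ℝ) < (I1 R : ℝ) := by rw [I1_eq]; linarith
  have h4 : (0 : ℤ) < I1 R := by exact_mod_cast h3
  omega

lemma I1_le (R : ℕ) : (I1 R : ℝ) ≤ T ones (Real.sqrt 2 - 1) R + 2 := by
  rw [I1_eq]
  have h2 := exp_ones.lt R
  linarith

lemma I0_le (R : ℕ) : (I0 R : ℝ) ≤ T zers (2 - Real.sqrt 2) R := by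
  rw [I0_eq]
  have h2 := exp_zers.pos R
  linarith

lemma sqrt_lt : Real.sqrt 2 < 1.4143 := by
  rw [Real.sqrt_lt' (by norm_num)]; norm_num

lemma lt_sqrt : 1.4142 < Real.sqrt 2 := by
  apply Real.lt_sqrt_of_sq_lt; norm_num

lemma I0_lower (R : ℕ) : -3 ≤ I0 R := by
  have h1 := T_lower exp_zers R
  have h2 := exp_zers.pos R
  have h3 := exp_zers.lt R
  have h4 : (-4 : ℝ) < (I0 R : ℝ) := by
    rw [I0_eq]
    set t := 2 ^ R * (2 - Real.sqrt 2) - V zers R with ht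
    have ht0 : 0 < t := by linarith
    have ht1 : t < 1 := by linarith
    have h5 : t ^ 2 / 2 ^ R ≤ 1 := by
      rw [div_le_one (by positivity)]
      have : (1 : ℝ) ≤ 2 ^ R := one_le_pow₀ (by norm_num)
      nlinarith
    have h6 := sqrt_lt
    nlinarith
  have h5 : (-4 : ℤ) < I0 R := by exact_mod_cast h4
  omega

lemma V_const {a : ℕ → ℕ} (l j : ℕ) (h : ∀ k, l < k → k ≤ l + j → a k = 0) :
    V a (l + j) = 2 ^ j * V a l := by
  induction j with
  | zero => simp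
  | succ j ih =>
    have h1 : V a (l + (j + 1)) = 2 * V a (l + j) + a (l + j + 1) := rfl
    rw [h1, ih (fun k hk1 hk2 => h k hk1 (by omega)), h (l + j + 1) (by omega) (by omega), pow_succ]
    ring

lemma gap_zers (l : ℕ) : ∃ b, zers b = 1 ∧ l < b ∧ b ≤ 2 * l + 2 := by
  by_contra hcon
  push Not at hcon
  have h0 : ∀ k, l < k → k ≤ l + (l + 2) → zers k = 0 := by
    intro k hk1 hk2
    by_contra hne
    have h1 : zers k = 1 := by have := exp_zers.le_one k; omega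
    have := hcon k h1 hk1
    omega
  have h1 := V_const (a := zers) l (l + 2) h0
  have h2 := exp_zers.lt (l + (l + 2))
  have h3 := exp_zers.pos l
  rw [h1] at h2
  push_cast at h2
  have h4 : ((V zers l : ℕ) : ℝ) + U l + 1 = 2 ^ (l + 1) := by exact_mod_cast V_zers l
  have h5 : (2 : ℝ) ^ (l + (l + 2)) = 2 ^ (l + 2) * 2 ^ l := by rw [← pow_add]; congr 1; ring
  rw [h5] at h2
  have h6 : (0 : ℝ) < 2 ^ (l + 2) := by positivity
  -- `p = U l + 1`
  set p : ℝ := (U l : ℝ) + 1 with hp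
  have h7 : 2 ^ l * (2 - Real.sqrt 2) - V zers l = p - 2 ^ l * Real.sqrt 2 := by
    rw [pow_succ] at h4
    linarith
  have h8 : 2 ^ (l + 2) * (p - 2 ^ l * Real.sqrt 2) < 1 := by
    rw [← h7]; nlinarith
  have h9 : 0 < p - 2 ^ l * Real.sqrt 2 := by rw [← h7]; linarith
  have h10 : (0 : ℝ) < p ^ 2 - 2 * (2 ^ l) ^ 2 := by
    have : p ^ 2 - 2 * (2 ^ l) ^ 2 = (p - 2 ^ l * Real.sqrt 2) * (p + 2 ^ l * Real.sqrt 2) := by
      have h := sqrt_sq
      linear_combination (((2 : ℝ) ^ l) ^ 2) * h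
    rw [this]
    have : 0 < 2 ^ l * Real.sqrt 2 := by have := sqrt_pos; positivity
    nlinarith
  have h11 : (1 : ℝ) ≤ p ^ 2 - 2 * (2 ^ l) ^ 2 := by
    have h12 : ((0 : ℤ) : ℝ) < (((U l : ℤ) + 1) ^ 2 - 2 * (2 ^ l) ^ 2 : ℤ) := by
      push_cast; exact h10
    have h13 : (0 : ℤ) < ((U l : ℤ) + 1) ^ 2 - 2 * (2 ^ l) ^ 2 := by exact_mod_cast h12
    have h14 : (1 : ℤ) ≤ ((U l : ℤ) + 1) ^ 2 - 2 * (2 ^ l) ^ 2 := by omega
    have h15 : ((1 : ℤ) : ℝ) ≤ ((((U l : ℤ) + 1) ^ 2 - 2 * (2 ^ l) ^ 2 : ℤ) : ℝ) := by exact_mod_cast h14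
    push_cast at h15
    exact h15
  have h16 : p ^ 2 - 2 * (2 ^ l) ^ 2 = (p - 2 ^ l * Real.sqrt 2) * (p + 2 ^ l * Real.sqrt 2) := by
    have h := sqrt_sq
    linear_combination (((2 : ℝ) ^ l) ^ 2) * h
  have h17 : (2 : ℝ) ^ (l + 2) = 4 * 2 ^ l := by rw [pow_add]; ring
  rw [h17] at h8
  set q : ℝ := 2 ^ l with hq
  have hq1 : 1 ≤ q := one_le_pow₀ (by norm_num)
  set δ : ℝ := p - q * Real.sqrt 2 with hδ
  have h18 : p + q * Real.sqrt 2 = δ + 2 * (q * Real.sqrt 2) := by rw [hδ]; ring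
  rw [h16, h18] at h11
  have h19 := sqrt_lt
  have h20 : δ < 1 / 4 := by nlinarith
  have h21 : δ * q < 1 / 4 := by linarith
  have h22 : δ * (2 * (q * Real.sqrt 2)) = 2 * Real.sqrt 2 * (δ * q) := by ring
  have h23 : 2 * Real.sqrt 2 * (δ * q) ≤ 2 * Real.sqrt 2 * (1 / 4) :=
    mul_le_mul_of_nonneg_left h21.le (by have := sqrt_pos; positivity)
  nlinarith

lemma sumT_le {a : ℕ → ℕ} {y : ℝ} (h : Exp a y) (n K : ℕ) (u w : ℕ → ℕ)
    (hcov : ∀ k ≤ n, a k = 1 → ∃ i < K, u i ≤ k ∧ k ≤ w i) (W : ℕ)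
    (hW : W = ∑ i ∈ range K, (w i + 1 - u i)) :
    ∑ R ∈ Icc 1 n, T a y R ≤ (W : ℝ) ^ 2 + 2 * n + 8 := by
  have h1 := sum_T a y n
  have h2 := sum_rep_le a n
  have h3 := T_le h n
  have h4 := (T_pos h 0).le
  have h5 : (∑ k ∈ range (n + 1), (a k : ℝ)) ≤ W := by
    have := sum_a_le h.le_one n K u w hcov
    rw [← hW] at this
    exact_mod_cast this
  have h6 : (∑ k ∈ range (n + 1), (a k : ℝ)) ^ 2 ≤ (W : ℝ) ^ 2 :=
    pow_le_pow_left₀ (sum_nonneg fun _ _ => Nat.cast_nonneg _) h5 2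
  linarith

theorem cover_ones (n K : ℕ) (hn : 8 ≤ n) (u w : ℕ → ℕ) (huw : ∀ i < K, u i ≤ w i)
    (hcov : ∀ k ≤ n, ones k = 1 → ∃ i < K, u i ≤ k ∧ k ≤ w i) :
    n ≤ 100 * (K * ∑ i ∈ range K, (w i + 1 - u i)) := by
  set W := ∑ i ∈ range K, (w i + 1 - u i) with hW
  have hKW : K ≤ W := by
    calc K = ∑ i ∈ range K, 1 := by simp
      _ ≤ W := sum_le_sum fun i hi => by have := huw i (mem_range.1 hi); omega
  have hK : 1 ≤ K := by
    have h2 : ones 2 = 1 := by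
      have hu : U 2 = 5 := by
        unfold U
        rw [Nat.floor_eq_iff (by positivity)]
        have := lt_sqrt
        have := sqrt_lt
        push_cast
        constructor <;> linarith
      unfold ones dg
      rw [hu]
      norm_num
    obtain ⟨i, hi, -⟩ := hcov 2 (by omega) h2
    omega
  refine numeric1 n K W hn hK hKW n (fun M => ?_) le_rfl
  have h1 := live_le (a := ones) exp_ones.le_one I1 (fun R => T ones (Real.sqrt 2 - 1) R + 2) (-2)
    I1_succ (fun R => by have := T_pos exp_ones R; linarith) I1_le n K u w hcov W hW M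
  have h2 : (live I1 n).card = n := by
    unfold live
    rw [filter_true_of_mem (fun R _ => I1_pos R), Nat.card_Icc]
    omega
  rw [h2] at h1
  refine h1.trans ?_
  have h3 := sumT_le exp_ones n K u w hcov W hW
  have h4 : ∑ R ∈ Icc 1 n, (T ones (Real.sqrt 2 - 1) R + 2) ≤ (W : ℝ) ^ 2 + 4 * n + 8 := by
    rw [sum_add_distrib, sum_const, Nat.card_Icc, nsmul_eq_mul]
    rw [Nat.add_sub_cancel]
    linarith
  have h5 : (∑ R ∈ Icc 1 n, (T ones (Real.sqrt 2 - 1) R + 2)) / 2 ^ M ≤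
      ((W : ℝ) ^ 2 + 4 * n + 8) / 2 ^ M := div_le_div_of_nonneg_right h4 (by positivity)
  linarith

theorem cover_zers (n K : ℕ) (hn : 8 ≤ n) (u w : ℕ → ℕ) (huw : ∀ i < K, u i ≤ w i)
    (hcov : ∀ k ≤ n, zers k = 1 → ∃ i < K, u i ≤ k ∧ k ≤ w i) :
    n ≤ 100 * (K * ∑ i ∈ range K, (w i + 1 - u i)) := by
  set W := ∑ i ∈ range K, (w i + 1 - u i) with hW
  have hKW : K ≤ W := by
    calc K = ∑ i ∈ range K, 1 := by simp
      _ ≤ W := sum_le_sum fun i hi => by have := huw i (mem_range.1 hi); omega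
  have hK : 1 ≤ K := by
    obtain ⟨b, hb, hb1, hb2⟩ := gap_zers 0
    obtain ⟨i, hi, -⟩ := hcov b (by omega) hb
    omega
  refine numeric n K W hn hK hKW (live I0 n).card (fun M => ?_) ?_
  · have h1 := live_le (a := zers) exp_zers.le_one I0 (T zers (2 - Real.sqrt 2)) 4
      I0_succ (fun R => (T_pos exp_zers R).le) I0_le n K u w hcov W hW M
    refine h1.trans ?_
    have h3 := sumT_le exp_zers n K u w hcov W hW
    have h5 : (∑ R ∈ Icc 1 n, T zers (2 - Real.sqrt 2) R) / 2 ^ M ≤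
        ((W : ℝ) ^ 2 + 2 * n + 8) / 2 ^ M := div_le_div_of_nonneg_right h3 (by positivity)
    linarith
  · have h1 := dead_le exp_zers.le_one (by simp [zers]) I0 4 I0_succ I0_lower gap_zers n
    have h2 := live_add_dead I0 n
    have h3 := sum_a_le exp_zers.le_one n K u w hcov
    rw [← hW] at h3
    have h4 : n ≤ 2 * (live I0 n).card + 4 * (W + 1) := by omega
    exact_mod_cast h4

end Pool.Agent.R474
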