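import Pool.Agent.R474.Sqrt

/-!
Lower bounds for the number of sums of two places of the same digit.
-/

set_option autoImplicit false

open Finset

namespace Pool.Agent.R474

variable {a : ℕ → ℕ} {y : ℝ}

/-- the places up to `n` at which `rep` or `a` does not vanish -/
def occ (a : ℕ → ℕ) (n : ℕ) : Finset ℕ := (Icc 1 n).filter (fun R => rep a R ≠ 0 ∨ a R ≠ 0)

lemma live_le_occ (I : ℕ → ℤ) (Tt : ℕ → ℝ) (e : ℤ)
    (hI : ∀ R, I (R + 1) = 2 * I R - rep a (R + 1) + e * a (R + 1))
    (hT0 : ∀ R, 0 ≤ Tt R) (hIT : ∀ R, (I R : ℝ) ≤ Tt R) (n M : ℕ) :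
    ((live I n).card : ℝ) ≤ (M + 1) * ((occ a n).card + 1) + (∑ R ∈ Icc 1 n, Tt R) / 2 ^ M := by
  classical
  set C := occ a n with hC
  set Hi := (Icc 1 n).filter (fun R => (2 : ℤ) ^ M ≤ I R) with hHi
  have hsub : live I n ⊆ (insert 0 C).biUnion (fun x => Icc x (x + M)) ∪ Hi := by
    intro R hR
    rw [live, mem_filter, mem_Icc] at hR
    obtain ⟨⟨hR1, hRn⟩, hpos⟩ := hR
    -- the last place of `insert 0 C` up to `R`
    set S := (insert 0 C).filter (· ≤ R) with hS
    have hSne : S.Nonempty := ⟨0, by rw [hS, mem_filter]; exact ⟨mem_insert_self _ _, Nat.zero_le _⟩⟩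
    set x := S.max' hSne with hx
    have hxS : x ∈ S := max'_mem S hSne
    obtain ⟨hx1, hx2⟩ := mem_filter.1 hxS
    by_cases hRx : R ≤ x + M
    · exact mem_union_left _ (mem_biUnion.2 ⟨x, hx1, mem_Icc.2 ⟨hx2, hRx⟩⟩)
    · refine mem_union_right _ (mem_filter.2 ⟨mem_Icc.2 ⟨hR1, hRn⟩, ?_⟩)
      have hzero : ∀ k, x < k → k ≤ R → rep a k = 0 ∧ a k = 0 := by
        intro k hk1 hk2
        by_contra hcon
        have hk3 : k ∈ C := by
          rw [hC, occ, mem_filter, mem_Icc]
          refine ⟨⟨by omega, by omega⟩, ?_⟩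
          tauto
        have hk4 : k ∈ S := mem_filter.2 ⟨mem_insert_of_mem hk3, hk2⟩
        have := le_max' S k hk4
        omega
      have hgrow : ∀ j, x + j ≤ R → I (x + j) = 2 ^ j * I x := by
        intro j
        induction j with
        | zero => intro _; simp
        | succ j ih =>
          intro hj
          obtain ⟨h1, h2⟩ := hzero (x + j + 1) (by omega) (by omega)
          rw [← Nat.add_assoc, hI, h1, h2, ih (by omega), pow_succ]
          push_cast
          ring
      have h1 := hgrow (R - x) (by omega)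
      have h2 : x + (R - x) = R := by omega
      rw [h2] at h1
      have h3 : 1 ≤ I x := by
        by_contra hcon
        push Not at hcon
        have : I x ≤ 0 := by omega
        have h4 : (0 : ℤ) < 2 ^ (R - x) := by positivity
        nlinarith
      have h4 : (2 : ℤ) ^ M ≤ 2 ^ (R - x) := pow_le_pow_right₀ (by norm_num) (by omega)
      have h5 : (0 : ℤ) < 2 ^ (R - x) := by positivity
      nlinarith
  have h1 : (((insert 0 C).biUnion (fun x => Icc x (x + M))).card : ℝ) ≤ (M + 1) * (C.card + 1) := by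
    have h2 : ((insert 0 C).biUnion (fun x => Icc x (x + M))).card ≤ (C.card + 1) * (M + 1) := by
      refine card_biUnion_le.trans ?_
      have h3 : ∀ x ∈ insert 0 C, (Icc x (x + M)).card = M + 1 := by
        intro x _
        rw [Nat.card_Icc]; omega
      rw [sum_congr rfl h3, sum_const, smul_eq_mul]
      exact Nat.mul_le_mul_right _ (card_insert_le _ _)
    have h3 : (((insert 0 C).biUnion (fun x => Icc x (x + M))).card : ℝ) ≤
        (((C.card + 1) * (M + 1) : ℕ) : ℝ) := by exact_mod_cast h2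
    push_cast at h3
    linarith
  have h2 : (Hi.card : ℝ) ≤ (∑ R ∈ Icc 1 n, Tt R) / 2 ^ M := by
    rw [le_div_iff₀ (by positivity)]
    calc (Hi.card : ℝ) * 2 ^ M = ∑ R ∈ Hi, (2 : ℝ) ^ M := by rw [sum_const, nsmul_eq_mul]
      _ ≤ ∑ R ∈ Hi, Tt R := by
        refine sum_le_sum fun R hR => ?_
        have h3 := (mem_filter.1 hR).2
        have h4 : ((2 : ℝ)) ^ M ≤ (I R : ℝ) := by exact_mod_cast h3
        exact h4.trans (hIT R)
      _ ≤ ∑ R ∈ Icc 1 n, Tt R :=
        sum_le_sum_of_subset_of_nonneg (filter_subset _ _) fun R _ _ => hT0 R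
  have h3 : ((live I n).card : ℝ) ≤
      (((insert 0 C).biUnion (fun x => Icc x (x + M))).card : ℝ) + (Hi.card : ℝ) := by
    exact_mod_cast (card_le_card hsub).trans (card_union_le _ _)
  linarith

end Pool.Agent.R474
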